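import Mathlib

/-!
# Hardy and Bergman numbers
-/

set_option autoImplicit false

open Metric Set MeasureTheory
open scoped ENNReal

namespace Q72.HN

/-- the Hardy space `H^p` of the unit disc -/
def MemHardy (p : ℝ) (f : ℂ → ℂ) : Prop :=
  DifferentiableOn ℂ f (ball 0 1) ∧
    ∃ C : ℝ, ∀ r ∈ Ioo (0:ℝ) 1, ∫ θ in (0:ℝ)..(2 * Real.pi), ‖f (circleMap 0 r θ)‖ ^ p ≤ C

/-- the weighted Bergman space `A^p_α` of the unit disc -/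
def MemBergman (p α : ℝ) (f : ℂ → ℂ) : Prop :=
  DifferentiableOn ℂ f (ball 0 1) ∧
    IntegrableOn (fun z : ℂ => ‖f z‖ ^ p * (1 - ‖z‖) ^ α) (ball 0 1)

/-- `h(f)` -/
noncomputable def hardyFun (f : ℂ → ℂ) : ℝ≥0∞ :=
  ⨆ (p : ℝ) (_ : 0 < p ∧ MemHardy p f), ENNReal.ofReal p

/-- `b(f)` -/
noncomputable def bergFun (f : ℂ → ℂ) : ℝ≥0∞ :=
  ⨆ (p : ℝ) (α : ℝ) (_ : 0 < p ∧ -1 < α ∧ MemBergman p α f), ENNReal.ofReal (p / (α + 2))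

/-- `b_α(f)` -/
noncomputable def bergWFun (α : ℝ) (f : ℂ → ℂ) : ℝ≥0∞ :=
  ⨆ (p : ℝ) (_ : 0 < p ∧ MemBergman p α f), ENNReal.ofReal p

/-- the holomorphic maps of the unit disc into `D` -/
def Hol (D : Set ℂ) : Set (ℂ → ℂ) :=
  {f | DifferentiableOn ℂ f (ball 0 1) ∧ MapsTo f (ball 0 1) D}

/-- the Hardy number `h(D)` -/
noncomputable def hardyNum (D : Set ℂ) : ℝ≥0∞ := ⨅ f ∈ Hol D, hardyFun f

/-- the Bergman number `b(D)` -/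
noncomputable def bergNum (D : Set ℂ) : ℝ≥0∞ := ⨅ f ∈ Hol D, bergFun f

/-- the weighted Bergman number `b_α(D)` -/
noncomputable def bergWNum (α : ℝ) (D : Set ℂ) : ℝ≥0∞ := ⨅ f ∈ Hol D, bergWFun α f

end Q72.HN
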