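import Mathlib

/-!
# The local model: a thin corridor followed by a large room
-/

set_option autoImplicit false

open Complex Metric Set

namespace Q72.HN

/-- `d(z) = 1 - conj ζ z + t` -/
noncomputable def dd (ζ : ℂ) (t : ℝ) (z : ℂ) : ℂ := 1 - (starRingEnd ℂ) ζ * z + t

noncomputable def hh (ζ : ℂ) (s t : ℝ) (z : ℂ) : ℂ := s / dd ζ t z

noncomputable def LL (ζ : ℂ) (s t : ℝ) (z : ℂ) : ℂ := Complex.log (1 + hh ζ s t z)

noncomputable def gg (ζ : ℂ) (a δ s t : ℝ) (z : ℂ) : ℂ :=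
  a * LL ζ s t z + δ * Complex.exp (LL ζ s t z / 2 + (Real.pi / 4 : ℝ) * I)

variable {ζ : ℂ} (hζ : ‖ζ‖ = 1) {a δ s t : ℝ}

include hζ in
lemma re_lt {z : ℂ} (hz : z ∈ ball (0:ℂ) 1) : ((starRingEnd ℂ) ζ * z).re < 1 := by
  have h1 := Complex.re_le_norm ((starRingEnd ℂ) ζ * z)
  rw [norm_mul, RCLike.norm_conj, hζ, one_mul] at h1
  rw [mem_ball_zero_iff] at hz
  linarith

include hζ in
lemma dd_re {z : ℂ} (hz : z ∈ ball (0:ℂ) 1) : t < (dd ζ t z).re := by
  have := re_lt hζ hz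
  simp only [dd, add_re, sub_re, one_re, ofReal_re]
  linarith

include hζ in
lemma norm_sub_eq (z : ℂ) : ‖1 - (starRingEnd ℂ) ζ * z‖ = ‖z - ζ‖ := by
  have h1 : (starRingEnd ℂ) ζ * ζ = 1 := by
    rw [mul_comm, Complex.mul_conj, Complex.normSq_eq_norm_sq, hζ]; simp
  have h2 : 1 - (starRingEnd ℂ) ζ * z = -((starRingEnd ℂ) ζ * (z - ζ)) := by
    rw [mul_sub, h1]; ring
  rw [h2, norm_neg, norm_mul, RCLike.norm_conj, hζ, one_mul]

include hζ in
lemma dd_norm_ge {z : ℂ} (hz : z ∈ ball (0:ℂ) 1) (ht : 0 ≤ t) : ‖z - ζ‖ ≤ ‖dd ζ t z‖ := by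
  rw [← norm_sub_eq hζ z]
  have h0 := re_lt hζ hz
  set w := 1 - (starRingEnd ℂ) ζ * z with hw
  have h1 : 0 < w.re := by simp only [hw, sub_re, one_re]; linarith
  have h2 : dd ζ t z = w + t := rfl
  rw [h2, Complex.norm_def, Complex.norm_def]
  apply Real.sqrt_le_sqrt
  rw [Complex.normSq_apply, Complex.normSq_apply]
  simp only [add_re, ofReal_re, add_im, ofReal_im, add_zero]
  nlinarith

include hζ in
lemma dd_norm_ge' {z : ℂ} (hz : z ∈ ball (0:ℂ) 1) : t ≤ ‖dd ζ t z‖ :=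
  (dd_re hζ hz).le.trans (Complex.re_le_norm _)

include hζ in
lemma hh_re {z : ℂ} (hz : z ∈ ball (0:ℂ) 1) (ht : 0 < t) (hs : 0 < s) : 0 < (hh ζ s t z).re := by
  have h1 := dd_re (t := t) hζ hz
  have h2 : 0 < (dd ζ t z).re := by linarith
  have h3 : 0 < Complex.normSq (dd ζ t z) := by
    rw [Complex.normSq_pos]; intro h; rw [h] at h2; simp at h2
  rw [hh, Complex.div_re]
  simp only [ofReal_re, ofReal_im, zero_mul, zero_div, add_zero]
  positivity

include hζ in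
lemma hh_norm {z : ℂ} (hz : z ∈ ball (0:ℂ) 1) (ht : 0 < t) (hs : 0 < s) :
    ‖hh ζ s t z‖ ≤ s / t ∧ ‖hh ζ s t z‖ * ‖z - ζ‖ ≤ s := by
  have h1 := dd_norm_ge' (t := t) hζ hz
  have h2 := dd_norm_ge hζ hz ht.le
  have h3 : 0 < ‖dd ζ t z‖ := lt_of_lt_of_le ht h1
  rw [hh, norm_div, Complex.norm_real, Real.norm_eq_abs, abs_of_pos hs]
  constructor
  · exact div_le_div_of_nonneg_left hs.le ht h1
  · rw [div_mul_eq_mul_div, div_le_iff₀ h3]
    exact mul_le_mul_of_nonneg_left h2 hs.le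

lemma one_add_slit {h : ℂ} (hh : 0 < h.re) : 1 + h ∈ slitPlane := by
  left; simp only [add_re, one_re]; linarith

lemma norm_one_add {h : ℂ} (hh : 0 < h.re) : 1 ≤ ‖1 + h‖ := by
  have := Complex.re_le_norm (1 + h)
  simp only [add_re, one_re] at this
  linarith

include hζ in
lemma LL_re {z : ℂ} (hz : z ∈ ball (0:ℂ) 1) (ht : 0 < t) (hs : 0 < s) :
    0 ≤ (LL ζ s t z).re ∧ Real.exp (LL ζ s t z).re ≤ 1 + ‖hh ζ s t z‖ ∧
      (LL ζ s t z).re ≤ ‖hh ζ s t z‖ := by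
  have h0 := hh_re hζ hz ht hs
  have h1 := norm_one_add h0
  have h2 : 0 < ‖1 + hh ζ s t z‖ := by linarith
  have h3 : ‖1 + hh ζ s t z‖ ≤ 1 + ‖hh ζ s t z‖ := by
    refine (norm_add_le _ _).trans ?_
    simp
  rw [LL, Complex.log_re]
  refine ⟨Real.log_nonneg h1, ?_, ?_⟩
  · rw [Real.exp_log h2]; exact h3
  · have := Real.log_le_sub_one_of_pos h2
    linarith

include hζ in
lemma LL_im {z : ℂ} (hz : z ∈ ball (0:ℂ) 1) (ht : 0 < t) (hs : 0 < s) :
    |(LL ζ s t z).im| < Real.pi / 2 := by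
  have h0 := hh_re hζ hz ht hs
  rw [LL, Complex.log_im, Complex.abs_arg_lt_pi_div_two_iff]
  left
  simp only [add_re, one_re]; linarith

include hζ in
lemma LL_norm {z : ℂ} (hz : z ∈ ball (0:ℂ) 1) (ht : 0 < t) (hs : 0 < s) :
    ‖LL ζ s t z‖ ≤ ‖hh ζ s t z‖ + 2 := by
  have h1 := LL_re hζ hz ht hs
  have h2 := LL_im hζ hz ht hs
  have h3 := Complex.norm_le_abs_re_add_abs_im (LL ζ s t z)
  rw [abs_of_nonneg h1.1] at h3
  have := Real.pi_lt_four
  linarith [h1.2.2]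

include hζ in
lemma gg_norm {z : ℂ} (hz : z ∈ ball (0:ℂ) 1) (ht : 0 < t) (hs : 0 < s) (ha : 0 < a) (hδ : 0 < δ) :
    ‖gg ζ a δ s t z‖ ≤ a * ‖LL ζ s t z‖ + δ * (1 + ‖hh ζ s t z‖) := by
  have h1 := LL_re hζ hz ht hs
  refine (norm_add_le _ _).trans ?_
  rw [norm_mul, norm_mul, Complex.norm_exp, Complex.norm_real, Complex.norm_real,
    Real.norm_eq_abs, Real.norm_eq_abs, abs_of_pos ha, abs_of_pos hδ]
  have h2 : (LL ζ s t z / 2 + (Real.pi / 4 : ℝ) * I).re = (LL ζ s t z).re / 2 := by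
    simp
  rw [h2]
  have h3 : Real.exp ((LL ζ s t z).re / 2) ≤ Real.exp (LL ζ s t z).re := by
    apply Real.exp_le_exp.2; linarith [h1.1]
  have h4 := mul_le_mul_of_nonneg_left (h3.trans h1.2.1) hδ.le
  linarith

include hζ in
lemma gg_re_im {z : ℂ} (hz : z ∈ ball (0:ℂ) 1) (ht : 0 < t) (hs : 0 < s) (ha : 0 < a)
    (hδ : 0 < δ) :
    a * (LL ζ s t z).re ≤ (gg ζ a δ s t z).re ∧
    a * (LL ζ s t z).im ≤ (gg ζ a δ s t z).im ∧
    (gg ζ a δ s t z).im ≤ a * (LL ζ s t z).im + δ * Real.exp ((LL ζ s t z).re / 2) := by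
  have h1 := abs_lt.1 (LL_im hζ hz ht hs)
  have e1 : (gg ζ a δ s t z).re = a * (LL ζ s t z).re +
      δ * (Real.exp ((LL ζ s t z).re / 2) * Real.cos ((LL ζ s t z).im / 2 + Real.pi / 4)) := by
    simp [gg, Complex.exp_re]
  have e2 : (gg ζ a δ s t z).im = a * (LL ζ s t z).im +
      δ * (Real.exp ((LL ζ s t z).re / 2) * Real.sin ((LL ζ s t z).im / 2 + Real.pi / 4)) := by
    simp [gg, Complex.exp_im]
  have hpi := Real.pi_pos
  have hc : 0 ≤ Real.cos ((LL ζ s t z).im / 2 + Real.pi / 4) :=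
    Real.cos_nonneg_of_neg_pi_div_two_le_of_le (by linarith) (by linarith)
  have hs' : 0 ≤ Real.sin ((LL ζ s t z).im / 2 + Real.pi / 4) :=
    Real.sin_nonneg_of_nonneg_of_le_pi (by linarith) (by linarith)
  have hs1 := Real.sin_le_one ((LL ζ s t z).im / 2 + Real.pi / 4)
  have he := Real.exp_pos ((LL ζ s t z).re / 2)
  rw [e1, e2]
  refine ⟨?_, ?_, ?_⟩
  · have : 0 ≤ δ * (Real.exp ((LL ζ s t z).re / 2) * Real.cos ((LL ζ s t z).im / 2 + Real.pi / 4)) := by
      positivity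
    linarith
  · have : 0 ≤ δ * (Real.exp ((LL ζ s t z).re / 2) * Real.sin ((LL ζ s t z).im / 2 + Real.pi / 4)) := by
      positivity
    linarith
  · have h2 : Real.exp ((LL ζ s t z).re / 2) * Real.sin ((LL ζ s t z).im / 2 + Real.pi / 4) ≤
      Real.exp ((LL ζ s t z).re / 2) := by nlinarith
    have := mul_le_mul_of_nonneg_left h2 hδ.le
    linarith

include hζ in
lemma gg_diff (ht : 0 < t) (hs : 0 < s) : DifferentiableOn ℂ (gg ζ a δ s t) (ball 0 1) := by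
  have h1 : DifferentiableOn ℂ (hh ζ s t) (ball 0 1) := by
    intro z hz
    have h2 : dd ζ t z ≠ 0 := by
      intro h
      have := dd_re (t := t) hζ hz
      rw [h] at this; simp at this; linarith
    apply DifferentiableAt.differentiableWithinAt
    unfold hh
    apply DifferentiableAt.div
    · fun_prop
    · unfold dd; fun_prop
    · exact h2
  have h2 : DifferentiableOn ℂ (LL ζ s t) (ball 0 1) := by
    intro z hz
    unfold LL
    apply DifferentiableWithinAt.clog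
    · exact (h1 z hz).const_add 1
    · exact one_add_slit (hh_re hζ hz ht hs)
  unfold gg
  fun_prop

include hζ in
theorem step (τ : ℝ) (hτ : 0 < τ) (hτ1 : τ ≤ 1/2) (X : ℝ) (hX : 0 ≤ X) (n : ℕ) :
    ∃ (g : ℂ → ℂ) (Y t T : ℝ), DifferentiableOn ℂ g (ball 0 1) ∧
   (∀ z ∈ ball (0:ℂ) 1, τ/1024 ≤ ‖z - ζ‖ → ‖g z‖ ≤ τ^2/1024) ∧
   (∀ z ∈ ball (0:ℂ) 1, ‖z - ζ‖ < τ/1024 → ‖g z‖ * ‖z - ζ‖ ≤ τ^2/1024) ∧
   (∀ z ∈ ball (0:ℂ) 1, 0 ≤ (g z).re ∧ -(τ/32) ≤ (g z).im ∧
      ((g z).im ≤ τ/16 ∨ X ≤ (g z).re)) ∧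
   (∀ z ∈ ball (0:ℂ) 1, ‖g z‖ ≤ Y) ∧
   0 < t ∧ t < τ/1024 ∧ 1 ≤ T ∧ t = 1/T^4 ∧ n * T + 4 ≤ ‖g ((1 - t) * ζ)‖ := by
  set a : ℝ := τ / 64 with ha'
  have ha : 0 < a := by positivity
  set δ : ℝ := min ((τ/32) * Real.exp (-(X / (2*a)))) (τ^2/8192) with hδ'
  have hδ : 0 < δ := by rw [hδ']; positivity
  have hδ1 : δ ≤ (τ/32) * Real.exp (-(X / (2*a))) := min_le_left _ _
  have hδ2 : δ ≤ τ^2/8192 := min_le_right _ _
  set ρ : ℝ := τ/1024 with hρ'
  have hρ : 0 < ρ := by positivity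
  set s : ℝ := ρ * (τ^2/8192) with hs'
  have hs : 0 < s := by positivity
  -- κ
  set κ : ℝ := (δ/2) * Real.sqrt (s/2) with hκ'
  have hκ : 0 < κ := by positivity
  set T : ℝ := 1 + (n+4)/κ + 2/ρ with hT'
  have hT1 : 1 ≤ T := by
    have : 0 ≤ ((n:ℝ)+4)/κ + 2/ρ := by positivity
    linarith
  have hT0 : 0 < T := by linarith
  have hTκ : (n+4) ≤ κ * T := by
    have h1 : (n+4)/κ ≤ T := by
      have : 0 ≤ 2/ρ := by positivity
      linarith
    rw [div_le_iff₀ hκ] at h1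
    linarith
  have hTρ : 2 ≤ ρ * T := by
    have h1 : 2/ρ ≤ T := by
      have : 0 ≤ ((n:ℝ)+4)/κ := by positivity
      linarith
    rw [div_le_iff₀ hρ] at h1
    linarith
  set t : ℝ := 1/T^4 with ht'
  have ht : 0 < t := by positivity
  have htρ : t < ρ := by
    rw [ht', div_lt_iff₀ (by positivity)]
    have h1 : T ≤ T^4 := by
      calc T = T * 1 := by ring
        _ ≤ T * T^3 := by
          apply mul_le_mul_of_nonneg_left _ hT0.le
          exact one_le_pow₀ hT1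
        _ = T^4 := by ring
    nlinarith
  have ht1 : t < 1 := by
    have : ρ < 1 := by rw [hρ']; linarith
    linarith
  refine ⟨gg ζ a δ s t, a * (s/t + 2) + δ * (1 + s/t), t, T, gg_diff hζ ht hs, ?_, ?_, ?_, ?_, ht,
    htρ, hT1, rfl, ?_⟩
  · intro z hz hzζ
    have h1 := (hh_norm hζ hz ht hs).2
    have h2 : ‖hh ζ s t z‖ ≤ τ^2/8192 := by
      have h3 : ‖hh ζ s t z‖ * ρ ≤ s :=
        (mul_le_mul_of_nonneg_left hzζ (norm_nonneg _)).trans h1
      rw [hs'] at h3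
      nlinarith
    have h3 : ‖hh ζ s t z‖ ≤ 1/2 := by nlinarith
    have h4 := gg_norm hζ hz ht hs ha hδ
    have h5 : ‖LL ζ s t z‖ ≤ 3/2 * ‖hh ζ s t z‖ := Complex.norm_log_one_add_half_le_self h3
    have h6 : a * ‖LL ζ s t z‖ ≤ 1 * (3/2 * (τ^2/8192)) := by
      apply mul_le_mul _ (by linarith) (norm_nonneg _) (by norm_num)
      rw [ha']; linarith
    have h7 : δ * (1 + ‖hh ζ s t z‖) ≤ (τ^2/8192) * 2 := by
      apply mul_le_mul hδ2 (by linarith) (by positivity) (by positivity)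
    nlinarith [sq_nonneg τ]
  · intro z hz hzζ
    have h1 := (hh_norm hζ hz ht hs).2
    have h4 := gg_norm hζ hz ht hs ha hδ
    have h5 := LL_norm hζ hz ht hs
    have h6 : ‖gg ζ a δ s t z‖ ≤ a * (‖hh ζ s t z‖ + 2) + δ * (1 + ‖hh ζ s t z‖) := by
      have := mul_le_mul_of_nonneg_left h5 ha.le
      linarith
    have h7 : ‖gg ζ a δ s t z‖ * ‖z - ζ‖ ≤ a * (s + 2 * ρ) + δ * (ρ + s) := by
      calc ‖gg ζ a δ s t z‖ * ‖z - ζ‖ ≤
          (a * (‖hh ζ s t z‖ + 2) + δ * (1 + ‖hh ζ s t z‖)) * ‖z - ζ‖ :=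
            mul_le_mul_of_nonneg_right h6 (norm_nonneg _)
        _ = a * (‖hh ζ s t z‖ * ‖z - ζ‖ + 2 * ‖z - ζ‖) +
            δ * (‖z - ζ‖ + ‖hh ζ s t z‖ * ‖z - ζ‖) := by ring
        _ ≤ _ := by
            apply add_le_add
            · apply mul_le_mul_of_nonneg_left _ ha.le; linarith
            · apply mul_le_mul_of_nonneg_left _ hδ.le; linarith
    have h8 : s ≤ ρ := by
      rw [hs']
      have : τ^2/8192 ≤ 1 := by nlinarith
      nlinarith
    have h9 : a * (s + 2 * ρ) ≤ a * (3 * ρ) := by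
      apply mul_le_mul_of_nonneg_left _ ha.le; linarith
    have h10 : δ * (ρ + s) ≤ (τ^2/8192) * (2*ρ) := by
      apply mul_le_mul hδ2 (by linarith) (by positivity) (by positivity)
    have h11 : a * (3 * ρ) = 3 * τ^2/65536 := by rw [ha', hρ']; ring
    have h12 : (τ^2/8192) * (2*ρ) ≤ τ^2/8192 := by
      have : 2 * ρ ≤ 1 := by rw [hρ']; linarith
      have h13 : 0 ≤ τ^2/8192 := by positivity
      nlinarith
    nlinarith [sq_nonneg τ]
  · intro z hz
    have h1 := LL_re hζ hz ht hs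
    have h2 := abs_lt.1 (LL_im hζ hz ht hs)
    have h3 := gg_re_im hζ hz ht hs ha hδ
    have hpi := Real.pi_lt_four
    have h4 : -(τ/32) ≤ a * (LL ζ s t z).im := by
      have : -2 ≤ (LL ζ s t z).im := by linarith
      have := mul_le_mul_of_nonneg_left this ha.le
      rw [ha'] at this ⊢
      linarith
    have h5 : a * (LL ζ s t z).im ≤ τ/32 := by
      have : (LL ζ s t z).im ≤ 2 := by linarith
      have := mul_le_mul_of_nonneg_left this ha.le
      rw [ha'] at this ⊢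
      linarith
    refine ⟨?_, by linarith [h3.2.1], ?_⟩
    · have : 0 ≤ a * (LL ζ s t z).re := mul_nonneg ha.le h1.1
      linarith [h3.1]
    · rcases le_or_gt (δ * Real.exp ((LL ζ s t z).re / 2)) (τ/32) with h6 | h6
      · left; linarith [h3.2.2]
      · right
        have h7 : (τ/32) < (τ/32) * Real.exp (-(X / (2*a))) * Real.exp ((LL ζ s t z).re / 2) := by
          refine lt_of_lt_of_le h6 ?_
          exact mul_le_mul_of_nonneg_right hδ1 (Real.exp_pos _).le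
        rw [mul_assoc, ← Real.exp_add] at h7
        have h8 : 1 < Real.exp (-(X / (2*a)) + (LL ζ s t z).re / 2) := by
          by_contra hcon
          push Not at hcon
          have : (τ/32) * Real.exp (-(X / (2*a)) + (LL ζ s t z).re / 2) ≤ (τ/32) * 1 :=
            mul_le_mul_of_nonneg_left hcon (by positivity)
          linarith
        rw [Real.one_lt_exp_iff] at h8
        have h9 : X / (2*a) < (LL ζ s t z).re / 2 := by linarith
        rw [div_lt_iff₀ (by positivity)] at h9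
        nlinarith [h3.1]
  · intro z hz
    have h1 := (hh_norm hζ hz ht hs).1
    have h4 := gg_norm hζ hz ht hs ha hδ
    have h5 := LL_norm hζ hz ht hs
    have h6 : a * ‖LL ζ s t z‖ ≤ a * (s/t + 2) := by
      apply mul_le_mul_of_nonneg_left _ ha.le; linarith
    have h7 : δ * (1 + ‖hh ζ s t z‖) ≤ δ * (1 + s/t) := by
      apply mul_le_mul_of_nonneg_left _ hδ.le; linarith
    linarith
  · have hcz : (starRingEnd ℂ) ζ * ζ = 1 := by
      rw [mul_comm, Complex.mul_conj, Complex.normSq_eq_norm_sq, hζ]; simp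
    have hd : dd ζ t ((1 - t) * ζ) = ((2 * t : ℝ) : ℂ) := by
      have : (starRingEnd ℂ) ζ * ((1 - (t:ℂ)) * ζ) = 1 - t := by
        calc (starRingEnd ℂ) ζ * ((1 - (t:ℂ)) * ζ) = (1 - t) * ((starRingEnd ℂ) ζ * ζ) := by ring
          _ = _ := by rw [hcz, mul_one]
      rw [dd, this]; push_cast; ring
    have hh1 : 1 + hh ζ s t ((1 - t) * ζ) = ((1 + s / (2*t) : ℝ) : ℂ) := by
      rw [hh, hd]; push_cast; ring
    set u : ℝ := 1 + s / (2*t) with hu'
    have hu : 1 ≤ u := by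
      have : 0 ≤ s/(2*t) := by positivity
      linarith
    have hL : LL ζ s t ((1 - t) * ζ) = ((Real.log u : ℝ) : ℂ) := by
      rw [LL, hh1, Complex.ofReal_log (by linarith)]
    have hg : (gg ζ a δ s t ((1 - t) * ζ)).im = δ * (Real.exp (Real.log u / 2) * Real.sin (Real.pi/4)) := by
      rw [gg, hL]
      simp [Complex.exp_im]
    have hexp : Real.exp (Real.log u / 2) = Real.sqrt u := by
      rw [Real.sqrt_eq_rpow, Real.rpow_def_of_pos (by linarith)]
      ring_nf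
    have hsin : 1/2 ≤ Real.sin (Real.pi/4) := by
      rw [Real.sin_pi_div_four]
      have : 1 ≤ Real.sqrt 2 := by
        rw [show (1:ℝ) = Real.sqrt 1 by simp]
        exact Real.sqrt_le_sqrt (by norm_num)
      linarith
    have hsq : Real.sqrt (s/2) * T^2 ≤ Real.sqrt u := by
      have e1 : Real.sqrt (s/2) * T^2 = Real.sqrt (s/2 * T^4) := by
        rw [Real.sqrt_mul (by positivity), show T^4 = (T^2)^2 by ring, Real.sqrt_sq (by positivity)]
      rw [e1]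
      apply Real.sqrt_le_sqrt
      rw [hu', ht']
      have : s / (2 * (1 / T^4)) = s/2 * T^4 := by
        field_simp
      rw [this]; linarith
    have h1 : δ * (Real.sqrt (s/2) * T^2 * (1/2)) ≤ (gg ζ a δ s t ((1 - t) * ζ)).im := by
      rw [hg, hexp]
      apply mul_le_mul_of_nonneg_left _ hδ.le
      apply mul_le_mul hsq hsin (by norm_num) (Real.sqrt_nonneg _)
    have h2 : δ * (Real.sqrt (s/2) * T^2 * (1/2)) = κ * T * T := by rw [hκ']; ring
    have h3 : (gg ζ a δ s t ((1 - t) * ζ)).im ≤ ‖gg ζ a δ s t ((1 - t) * ζ)‖ :=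
      (le_abs_self _).trans (Complex.abs_im_le_norm _)
    have h4 : (n+4) * T ≤ κ * T * T := mul_le_mul_of_nonneg_right hTκ hT0.le
    have h5 : (n:ℝ) * T + 4 ≤ (n+4) * T := by nlinarith
    linarith

end Q72.HN
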