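import Mathlib
import Pool.Agent.Q72.HN.Step

/-!
# The domains and the holomorphic map into the larger one
-/

set_option autoImplicit false

open Complex Metric Set Filter Topology

namespace Q72.HN

noncomputable def τ (n : ℕ) : ℝ := (1/2)^(n+1)

lemma τ_pos (n : ℕ) : 0 < τ n := by unfold τ; positivity

lemma τ_succ (n : ℕ) : τ (n+1) = τ n / 2 := by unfold τ; rw [pow_succ]; ring

lemma τ_le (n : ℕ) : τ n ≤ 1/2 := by
  unfold τ
  calc (1/2:ℝ)^(n+1) ≤ (1/2)^1 := pow_le_pow_of_le_one (by norm_num) (by norm_num) (by omega)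
    _ = 1/2 := by norm_num

lemma τ_anti {m n : ℕ} (h : m < n) : τ n ≤ τ m / 2 := by
  rw [← τ_succ]
  unfold τ
  exact pow_le_pow_of_le_one (by norm_num) (by norm_num) (by omega)

lemma τ_sum : HasSum τ 1 := by
  have h1 : HasSum (fun n : ℕ => (1/2:ℝ)^n) 2 := hasSum_geometric_two
  have h2 := h1.mul_left (1/2:ℝ)
  have e1 : (fun n : ℕ => (1/2:ℝ) * (1/2)^n) = τ := by
    funext n; unfold τ; rw [pow_succ]; ring
  have e2 : (1/2:ℝ) * 2 = 1 := by norm_num
  rw [e1, e2] at h2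
  exact h2

noncomputable def ζ (n : ℕ) : ℂ := ⟨Real.sqrt (1 - τ n ^ 2), -τ n⟩

lemma ζ_norm (n : ℕ) : ‖ζ n‖ = 1 := by
  have h1 := τ_pos n
  have h2 := τ_le n
  rw [Complex.norm_def, Complex.normSq_apply]
  simp only [ζ]
  rw [Real.mul_self_sqrt (by nlinarith)]
  rw [show 1 - τ n ^ 2 + -τ n * -τ n = 1 by ring, Real.sqrt_one]

lemma one_sub_ζ_im (n : ℕ) : (1 - ζ n).im = τ n := by simp [ζ]

lemma one_sub_ζ_re (n : ℕ) : 0 ≤ (1 - ζ n).re ∧ (1 - ζ n).re ≤ τ n := by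
  have h1 := τ_pos n
  have h2 := τ_le n
  simp only [ζ, sub_re, one_re]
  constructor
  · have : Real.sqrt (1 - τ n ^ 2) ≤ 1 := by
      rw [show (1:ℝ) = Real.sqrt 1 by simp]
      apply Real.sqrt_le_sqrt; simp; positivity
    linarith
  · have : 1 - τ n ≤ Real.sqrt (1 - τ n ^ 2) := by
      apply Real.le_sqrt_of_sq_le; nlinarith
    linarith

lemma one_sub_ζ_norm (n : ℕ) : τ n ≤ ‖1 - ζ n‖ ∧ ‖1 - ζ n‖ ≤ 2 * τ n := by
  have h1 := τ_pos n
  have h2 := one_sub_ζ_re n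
  constructor
  · have := Complex.abs_im_le_norm (1 - ζ n)
    rw [one_sub_ζ_im, abs_of_pos h1] at this
    exact this
  · have := Complex.norm_le_abs_re_add_abs_im (1 - ζ n)
    rw [one_sub_ζ_im, abs_of_pos h1, abs_of_nonneg h2.1] at this
    linarith

/-- at most one index is close -/
lemma close_unique {z : ℂ} {m n : ℕ} (hmn : m ≠ n) (hm : ‖z - ζ n‖ < τ n / 1024) :
    τ m / 1024 ≤ ‖z - ζ m‖ := by
  have key : ∀ i j : ℕ, i < j → τ i / 2 ≤ ‖ζ i - ζ j‖ := by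
    intro i j hij
    have h1 := Complex.abs_im_le_norm (ζ i - ζ j)
    have h2 : (ζ i - ζ j).im = -(τ i - τ j) := by simp [ζ]; ring
    have h3 := τ_anti hij
    rw [h2, abs_neg] at h1
    have := le_abs_self (τ i - τ j)
    linarith
  have htri : ‖ζ m - ζ n‖ ≤ ‖z - ζ n‖ + ‖z - ζ m‖ := by
    have : ζ m - ζ n = (z - ζ n) - (z - ζ m) := by ring
    rw [this]; exact norm_sub_le _ _
  have hpm := τ_pos m
  have hpn := τ_pos n
  rcases lt_or_gt_of_ne hmn with h | h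
  · have h1 := key m n h
    have h2 := τ_anti h
    linarith
  · have h1 := key n m h
    rw [norm_sub_rev] at h1
    have h2 := τ_anti h
    linarith

structure Data (X : ℕ → ℝ) (g : ℕ → ℂ → ℂ) (t T : ℕ → ℝ) : Prop where
  X0 : X 0 = 10
  Xs : ∀ n, X n + 10 ≤ X (n+1)
  diff : ∀ n, DifferentiableOn ℂ (g n) (ball 0 1)
  far : ∀ n, ∀ z ∈ ball (0:ℂ) 1, τ n/1024 ≤ ‖z - ζ n‖ → ‖g n z‖ ≤ τ n^2/1024
  near : ∀ n, ∀ z ∈ ball (0:ℂ) 1, ‖z - ζ n‖ < τ n/1024 → ‖g n z‖ * ‖z - ζ n‖ ≤ τ n^2/1024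
  pos : ∀ n, ∀ z ∈ ball (0:ℂ) 1, 0 ≤ (g n z).re ∧ -(τ n/32) ≤ (g n z).im ∧
      ((g n z).im ≤ τ n/16 ∨ X n + 2 ≤ (g n z).re)
  bdd : ∀ n, ∀ z ∈ ball (0:ℂ) 1, ‖g n z‖ ≤ X (n+1) - 8
  t0 : ∀ n, 0 < t n
  t1 : ∀ n, t n < τ n/1024
  T1 : ∀ n, 1 ≤ T n
  tT : ∀ n, t n = 1/(T n)^4
  big : ∀ n : ℕ, n * T n + 4 ≤ ‖g n ((1 - t n) * ζ n)‖

theorem exists_data : ∃ X g t T, Data X g t T := by
  have hst := fun (n : ℕ) (X : ℝ) => step (ζ_norm n) (τ n) (τ_pos n) (τ_le n) (|X| + 2)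
    (by positivity) n
  choose g Y t T h1 h2 h3 h4 h5 h6 h7 h8 h9 h10 using hst
  let X : ℕ → ℝ := fun n => Nat.rec 10 (fun n x => x + |Y n x| + 10) n
  have X0 : X 0 = 10 := rfl
  have Xs : ∀ n, X (n+1) = X n + |Y n (X n)| + 10 := fun n => rfl
  have Xpos : ∀ n, 0 ≤ X n := by
    intro n
    induction n with
    | zero => rw [X0]; norm_num
    | succ n ih => rw [Xs]; positivity
  refine ⟨X, fun n => g n (X n), fun n => t n (X n), fun n => T n (X n), X0, ?_, fun n => h1 n _,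
    fun n => h2 n _, fun n => h3 n _, ?_, ?_, fun n => h6 n _, fun n => h7 n _, fun n => h8 n _,
    fun n => h9 n _, fun n => h10 n _⟩
  · intro n; rw [Xs]; have := abs_nonneg (Y n (X n)); linarith
  · intro n z hz
    have := h4 n (X n) z hz
    rw [abs_of_nonneg (Xpos n)] at this
    exact this
  · intro n z hz
    have := h5 n (X n) z hz
    rw [Xs]
    have h' := le_abs_self (Y n (X n))
    have := Xpos n
    linarith

variable {X : ℕ → ℝ} {g : ℕ → ℂ → ℂ} {t T : ℕ → ℝ}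

lemma Data.Xge (h : Data X g t T) (n : ℕ) : 10 ≤ X n := by
  induction n with
  | zero => rw [h.X0]
  | succ n ih => have := h.Xs n; linarith

lemma Data.Xmono (h : Data X g t T) {m n : ℕ} (hmn : m ≤ n) : X m ≤ X n := by
  apply monotone_nat_of_le_succ _ hmn
  intro n; have := h.Xs n; linarith

/-- the summands -/
noncomputable def trm (g : ℕ → ℂ → ℂ) (n : ℕ) (z : ℂ) : ℂ := g n z / (1 - ζ n)

noncomputable def FF (g : ℕ → ℂ → ℂ) (z : ℂ) : ℂ := (1 - z) * (1 + ∑' n, trm g n z)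

lemma one_sub_ζ_ne (n : ℕ) : (1 - ζ n) ≠ 0 := by
  intro h
  have := (one_sub_ζ_norm n).1
  rw [h, norm_zero] at this
  linarith [τ_pos n]

lemma Data.trm_far (h : Data X g t T) {z : ℂ} (hz : z ∈ ball (0:ℂ) 1) {n : ℕ}
    (hn : τ n/1024 ≤ ‖z - ζ n‖) : ‖trm g n z‖ ≤ τ n / 1024 := by
  have h1 := h.far n z hz hn
  have h2 := (one_sub_ζ_norm n).1
  have h3 := τ_pos n
  rw [trm, norm_div, div_le_iff₀ (by linarith)]
  nlinarith

lemma Data.trm_bdd (h : Data X g t T) {z : ℂ} (hz : z ∈ ball (0:ℂ) 1) (n : ℕ) :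
    ‖trm g n z‖ ≤ X (n+1) / τ n := by
  have h1 := h.bdd n z hz
  have h2 := (one_sub_ζ_norm n).1
  have h3 := τ_pos n
  rw [trm, norm_div]
  apply div_le_div₀ (by have := h.Xge (n+1); linarith) (by linarith) h3 h2

lemma exists_N {r : ℝ} (hr : r < 1) : ∃ N : ℕ, ∀ n, N ≤ n → ∀ z ∈ ball (0:ℂ) r,
    τ n / 1024 ≤ ‖z - ζ n‖ := by
  obtain ⟨N, hN⟩ := exists_pow_lt_of_lt_one (sub_pos.2 hr) (show (1/2:ℝ) < 1 by norm_num)
  refine ⟨N, fun n hn z hz => ?_⟩
  rw [mem_ball_zero_iff] at hz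
  have h1 : 1 - r ≤ ‖z - ζ n‖ := by
    have := norm_sub_norm_le (ζ n) z
    rw [ζ_norm, norm_sub_rev] at this
    linarith
  have h2 : τ n ≤ (1/2)^N := by
    unfold τ
    exact pow_le_pow_of_le_one (by norm_num) (by norm_num) (by omega)
  have h3 := τ_pos n
  linarith

/-- uniform summable bound on a smaller disc -/
lemma Data.exists_bound (h : Data X g t T) {r : ℝ} (hr : r < 1) :
    ∃ u : ℕ → ℝ, Summable u ∧ ∀ n, ∀ z ∈ ball (0:ℂ) r, ‖trm g n z‖ ≤ u n := by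
  obtain ⟨N, hN⟩ := exists_N hr
  refine ⟨fun n => if n < N then X (n+1) / τ n else τ n / 1024, ?_, ?_⟩
  · apply (τ_sum.summable.div_const 1024).congr_cofinite
    rw [Nat.cofinite_eq_atTop]
    filter_upwards [eventually_ge_atTop N] with n hn
    rw [if_neg (by omega)]
  · intro n z hz
    have hz1 : z ∈ ball (0:ℂ) 1 := ball_subset_ball hr.le hz
    beta_reduce
    split_ifs with hn
    · exact h.trm_bdd hz1 n
    · exact h.trm_far hz1 (hN n (by omega) z hz)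

lemma Data.diffF (h : Data X g t T) : DifferentiableOn ℂ (FF g) (ball 0 1) := by
  intro z hz
  rw [mem_ball_zero_iff] at hz
  obtain ⟨r, hzr, hr⟩ := exists_between hz
  obtain ⟨u, hu, hub⟩ := h.exists_bound hr
  have h1 : DifferentiableOn ℂ (fun z => ∑' n, trm g n z) (ball 0 r) := by
    apply differentiableOn_tsum_of_summable_norm hu _ isOpen_ball hub
    intro n
    unfold trm
    exact ((h.diff n).mono (ball_subset_ball hr.le)).div_const _
  have h2 : DifferentiableAt ℂ (fun z => ∑' n, trm g n z) z :=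
    h1.differentiableAt (isOpen_ball.mem_nhds (by simpa using hzr))
  apply DifferentiableAt.differentiableWithinAt
  unfold FF
  exact ((differentiableAt_id.const_sub 1)).mul (h2.const_add 1)

lemma Data.summ (h : Data X g t T) {z : ℂ} (hz : z ∈ ball (0:ℂ) 1) :
    Summable (fun n => trm g n z) := by
  rw [mem_ball_zero_iff] at hz
  obtain ⟨r, hzr, hr⟩ := exists_between hz
  obtain ⟨u, hu, hub⟩ := h.exists_bound hr
  exact Summable.of_norm_bounded hu (fun n => hub n z (by simpa using hzr))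

/-- far from all the points `ζ n` -/
lemma Data.F_far (h : Data X g t T) {z : ℂ} (hz : z ∈ ball (0:ℂ) 1)
    (hf : ∀ n, τ n / 1024 ≤ ‖z - ζ n‖) : ‖FF g z - (1 - z)‖ ≤ 1/512 := by
  have h1 : ‖∑' n, trm g n z‖ ≤ 1/1024 :=
    tsum_of_norm_bounded (τ_sum.div_const 1024) (fun n => h.trm_far hz (hf n))
  have h2 : FF g z - (1 - z) = (1 - z) * ∑' n, trm g n z := by unfold FF; ring
  have h3 : ‖1 - z‖ ≤ 2 := by
    refine (norm_sub_le _ _).trans ?_
    rw [mem_ball_zero_iff] at hz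
    rw [norm_one]; linarith
  rw [h2, norm_mul]
  calc ‖1 - z‖ * ‖∑' n, trm g n z‖ ≤ 2 * (1/1024) :=
        mul_le_mul h3 h1 (norm_nonneg _) (by norm_num)
    _ = 1/512 := by norm_num

lemma Data.F_near (h : Data X g t T) {z : ℂ} (hz : z ∈ ball (0:ℂ) 1) {n : ℕ}
    (hn : ‖z - ζ n‖ < τ n / 1024) : ‖FF g z - (1 - ζ n) - g n z‖ ≤ τ n / 200 := by
  have hτ := τ_pos n
  have hs := h.summ hz
  rw [FF, hs.tsum_eq_add_tsum_ite n]
  set S := ∑' m, if m = n then 0 else trm g m z with hS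
  have h1 : ‖S‖ ≤ 1/1024 := by
    apply tsum_of_norm_bounded (τ_sum.div_const 1024)
    intro m
    split_ifs with hm
    · rw [norm_zero]; have := τ_pos m; positivity
    · exact h.trm_far hz (close_unique hm hn)
  have hne := one_sub_ζ_ne n
  have e1 : (1 - z) * (1 + (trm g n z + S)) - (1 - ζ n) - g n z =
      (ζ n - z) + (g n z * (ζ n - z)) / (1 - ζ n) + (1 - z) * S := by
    rw [trm]; field_simp; ring
  rw [e1]
  have h2 : ‖(ζ n - z)‖ ≤ τ n / 1024 := by rw [norm_sub_rev]; exact hn.le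
  have h3 : ‖(g n z * (ζ n - z)) / (1 - ζ n)‖ ≤ τ n / 1024 := by
    have h4 := h.near n z hz hn
    have h5 := (one_sub_ζ_norm n).1
    rw [norm_div, norm_mul, norm_sub_rev, div_le_iff₀ (by linarith)]
    nlinarith
  have h4 : ‖(1 - z) * S‖ ≤ (3 * τ n) * (1/1024) := by
    rw [norm_mul]
    apply mul_le_mul _ h1 (norm_nonneg _) (by positivity)
    have : 1 - z = (1 - ζ n) + (ζ n - z) := by ring
    rw [this]
    refine (norm_add_le _ _).trans ?_
    have := (one_sub_ζ_norm n).2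
    linarith
  have h5 := norm_add_le ((ζ n - z) + (g n z * (ζ n - z)) / (1 - ζ n)) ((1 - z) * S)
  have h6 := norm_add_le (ζ n - z) ((g n z * (ζ n - z)) / (1 - ζ n))
  linarith

/-- base square -/
def B0 : Set ℂ := {z | |z.re| < 3 ∧ |z.im| < 3}
/-- corridors -/
def Cor (X : ℕ → ℝ) (c : ℝ) (n : ℕ) : Set ℂ :=
  {z | c < z.re ∧ z.re < X n + 1 ∧ |z.im - τ n| < τ n / 8}
/-- rooms -/
def Room (X : ℕ → ℝ) (n : ℕ) : Set ℂ :=
  {z | X n < z.re ∧ z.re < X (n+1) ∧ τ n - τ n / 8 < z.im ∧ z.im < X (n+1)}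

def D2 (X : ℕ → ℝ) : Set ℂ := B0 ∪ ⋃ n, (Cor X 2 n ∪ Room X n)

theorem Data.mapsTo (h : Data X g t T) : MapsTo (FF g) (ball 0 1) (D2 X) := by
  intro z hz
  by_cases hf : ∀ n, τ n / 1024 ≤ ‖z - ζ n‖
  · left
    have h1 := h.F_far hz hf
    have h2 := (Complex.abs_re_le_norm _).trans h1
    have h3 := (Complex.abs_im_le_norm _).trans h1
    rw [mem_ball_zero_iff] at hz
    have h4 := (Complex.abs_re_le_norm z).trans hz.le
    have h5 := (Complex.abs_im_le_norm z).trans hz.le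
    rw [abs_le] at h2 h3 h4 h5
    simp only [sub_re, sub_im, one_re, one_im] at h2 h3
    constructor
    · rw [abs_lt]; constructor <;> linarith [h2.1, h2.2, h4.1, h4.2]
    · rw [abs_lt]; constructor <;> linarith [h3.1, h3.2, h5.1, h5.2]
  · push Not at hf
    obtain ⟨n, hn⟩ := hf
    have h1 := h.F_near hz hn
    have h2 := (Complex.abs_re_le_norm _).trans h1
    have h3 := (Complex.abs_im_le_norm _).trans h1
    rw [abs_le] at h2 h3
    rw [sub_re, sub_re] at h2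
    rw [sub_im, sub_im, one_sub_ζ_im] at h3
    have h4 := one_sub_ζ_re n
    have hτ := τ_pos n
    have hτ1 := τ_le n
    have h5 := h.pos n z hz
    have h6 := h.bdd n z hz
    have h7 := (Complex.abs_re_le_norm _).trans h6
    have h8 := (Complex.abs_im_le_norm _).trans h6
    rw [abs_le] at h7 h8
    have hX := h.Xge n
    set F := FF g z
    rcases h5.2.2 with h9 | h9
    · have h10 : |F.im - τ n| < τ n / 8 := by
        rw [abs_lt]; constructor <;> linarith [h3.1, h3.2, h5.2.1]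
      rcases lt_or_ge F.re 3 with h11 | h11
      · left
        constructor
        · rw [abs_lt]; constructor
          · linarith [h2.1, h5.1]
          · exact h11
        · rw [abs_lt] at h10 ⊢
          constructor <;> linarith [h10.1, h10.2]
      · right
        rw [mem_iUnion]
        refine ⟨n, ?_⟩
        rcases lt_or_ge F.re (X n + 1) with h12 | h12
        · left
          exact ⟨by linarith, h12, h10⟩
        · right
          refine ⟨by linarith, by linarith [h2.2, h7.2], ?_, by linarith [h3.2, h8.2]⟩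
          rw [abs_lt] at h10
          linarith [h10.1]
    · right
      rw [mem_iUnion]
      refine ⟨n, Or.inr ⟨by linarith [h2.1], by linarith [h2.2, h7.2], ?_, by linarith [h3.2, h8.2]⟩⟩
      linarith [h3.1, h5.2.1]

lemma Data.mem_pt (h : Data X g t T) (n : ℕ) : (1 - t n) * ζ n ∈ ball (0:ℂ) 1 ∧
    ‖((1 - t n) * ζ n : ℂ)‖ = 1 - t n ∧ ‖(1 - t n) * ζ n - ζ n‖ = t n := by
  have h1 := h.t0 n
  have h2 := h.t1 n
  have h3 := τ_le n
  have e1 : ‖((1 - t n) * ζ n : ℂ)‖ = 1 - t n := by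
    rw [norm_mul, ζ_norm, mul_one, show (1 - (t n : ℂ)) = ((1 - t n : ℝ) : ℂ) by push_cast; ring,
      Complex.norm_real, Real.norm_eq_abs, abs_of_pos (by linarith)]
  refine ⟨?_, e1, ?_⟩
  · rw [mem_ball_zero_iff, e1]; linarith
  · rw [show (1 - (t n:ℂ)) * ζ n - ζ n = -((t n : ℝ) : ℂ) * ζ n by ring, norm_mul, ζ_norm, mul_one,
      norm_neg, Complex.norm_real, Real.norm_eq_abs, abs_of_pos h1]

theorem Data.growth (h : Data X g t T) (n : ℕ) : n * T n ≤ ‖FF g ((1 - t n) * ζ n)‖ := by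
  obtain ⟨h1, -, h3⟩ := h.mem_pt n
  have h4 : ‖(1 - t n) * ζ n - ζ n‖ < τ n / 1024 := by rw [h3]; exact h.t1 n
  have h5 := h.F_near h1 h4
  have h6 := h.big n
  have h7 := (one_sub_ζ_norm n).2
  have h8 := τ_le n
  have h9 : g n ((1 - t n) * ζ n) = FF g ((1 - t n) * ζ n) - (1 - ζ n) -
    (FF g ((1 - t n) * ζ n) - (1 - ζ n) - g n ((1 - t n) * ζ n)) := by ring
  have h10 := norm_sub_le (FF g ((1 - t n) * ζ n) - (1 - ζ n))
    (FF g ((1 - t n) * ζ n) - (1 - ζ n) - g n ((1 - t n) * ζ n))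
  have h11 := norm_sub_le (FF g ((1 - t n) * ζ n)) (1 - ζ n)
  rw [← h9] at h10
  linarith

end Q72.HN
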