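import Mathlib
import Pool.Agent.Q72.HN.Map
import Pool.Agent.Q72.HN.Defs
import Pool.Agent.H402R2.SubMean

/-!
# Hardy spaces are contained in Bergman spaces; growth of Bergman functions
-/

set_option autoImplicit false

open Metric Set MeasureTheory Filter Topology
open scoped ENNReal

namespace Q72.HN

lemma circle_mem {r θ : ℝ} (h0 : 0 < r) (h1 : r < 1) : circleMap 0 r θ ∈ ball (0:ℂ) 1 := by
  rw [mem_ball_zero_iff, norm_circleMap_zero, abs_of_pos h0]; exact h1

lemma norm_cont {f : ℂ → ℂ} (hf : DifferentiableOn ℂ f (ball 0 1)) {p : ℝ} (hp : 0 < p) {r : ℝ}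
    (h0 : 0 < r) (h1 : r < 1) : Continuous (fun θ : ℝ => ‖f (circleMap 0 r θ)‖ ^ p) := by
  have h2 : Continuous (fun θ : ℝ => f (circleMap 0 r θ)) := by
    rw [← continuousOn_univ]
    exact hf.continuousOn.comp (continuous_circleMap 0 r).continuousOn
      (fun θ _ => circle_mem h0 h1)
  exact h2.norm.rpow_const (fun _ => Or.inr hp.le)

lemma hardy_bergman {p α : ℝ} (hp : 0 < p) (hα : -1 < α) {f : ℂ → ℂ} (hf : MemHardy p f) :
    MemBergman p α f := by
  obtain ⟨hd, C, hC⟩ := hf
  refine ⟨hd, ?_⟩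
  set G : ℂ → ℝ := fun z => ‖f z‖ ^ p * (1 - ‖z‖) ^ α with hG
  have hcont : ContinuousOn G (ball 0 1) := by
    apply ContinuousOn.mul
    · exact hd.continuousOn.norm.rpow_const (fun _ _ => Or.inr hp.le)
    · apply ContinuousOn.rpow_const
      · fun_prop
      · intro z hz
        left
        rw [mem_ball_zero_iff] at hz
        linarith
  have hmeas : AEStronglyMeasurable G (volume.restrict (ball (0:ℂ) 1)) :=
    hcont.aestronglyMeasurable measurableSet_ball
  refine ⟨hmeas, ?_⟩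
  have hnn : 0 ≤ᵐ[volume.restrict (ball (0:ℂ) 1)] G := by
    filter_upwards [ae_restrict_mem measurableSet_ball] with z hz
    rw [mem_ball_zero_iff] at hz
    have : 0 ≤ (1 - ‖z‖) ^ α := Real.rpow_nonneg (by linarith) _
    simp only [hG, Pi.zero_apply]
    positivity
  rw [hasFiniteIntegral_iff_ofReal hnn]
  have e1 : ∫⁻ z in ball (0:ℂ) 1, ENNReal.ofReal (G z) =
      ∫⁻ z, (ball (0:ℂ) 1).indicator (fun z => ENNReal.ofReal (G z)) z := by
    rw [lintegral_indicator measurableSet_ball]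
  rw [e1, ← Complex.lintegral_comp_polarCoord_symm]
  set S : Set (ℝ × ℝ) := Ioo 0 1 ×ˢ Ioo (-Real.pi) Real.pi with hS
  have hSm : MeasurableSet S := measurableSet_Ioo.prod measurableSet_Ioo
  set H : ℝ × ℝ → ℝ≥0∞ := fun q => ENNReal.ofReal ((1 - q.1) ^ α * ‖f (circleMap 0 q.1 q.2)‖ ^ p)
    with hH
  have hpt : ∀ q ∈ polarCoord.target, ENNReal.ofReal q.1 •
      (ball (0:ℂ) 1).indicator (fun z => ENNReal.ofReal (G z)) (Complex.polarCoord.symm q) ≤
      S.indicator H q := by
    rintro ⟨r, θ⟩ ⟨hr, hθ⟩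
    have hr' : 0 < r := hr
    have hn : ‖Complex.polarCoord.symm (r, θ)‖ = r := by
      rw [Complex.norm_polarCoord_symm]; simp [abs_of_pos hr']
    rcases lt_or_ge r 1 with h1 | h1
    · have hmem : Complex.polarCoord.symm (r, θ) ∈ ball (0:ℂ) 1 := by
        rw [mem_ball_zero_iff, hn]; exact h1
      have hSmem : (r, θ) ∈ S := ⟨⟨hr', h1⟩, hθ⟩
      rw [indicator_of_mem hmem, indicator_of_mem hSmem, smul_eq_mul]
      simp only [hG, hH, hn]
      have e2 : Complex.polarCoord.symm (r, θ) = circleMap 0 r θ := by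
        rw [circleMap, Complex.polarCoord_symm_apply, Complex.exp_mul_I]; simp
      rw [e2, ← ENNReal.ofReal_mul hr'.le]
      apply ENNReal.ofReal_le_ofReal
      have h3 : 0 ≤ (1 - r) ^ α := Real.rpow_nonneg (by linarith) _
      have h4 : 0 ≤ ‖f (circleMap 0 r θ)‖ ^ p := by positivity
      nlinarith [mul_nonneg h3 h4]
    · have hmem : Complex.polarCoord.symm (r, θ) ∉ ball (0:ℂ) 1 := by
        rw [mem_ball_zero_iff, hn]; linarith
      rw [indicator_of_notMem hmem, smul_zero]
      exact zero_le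
  have htm : MeasurableSet polarCoord.target := polarCoord.open_target.measurableSet
  have h1 : ∫⁻ q in polarCoord.target, ENNReal.ofReal q.1 •
      (ball (0:ℂ) 1).indicator (fun z => ENNReal.ofReal (G z)) (Complex.polarCoord.symm q) ≤
      ∫⁻ q in S, H q := by
    refine (setLIntegral_mono' htm hpt).trans ?_
    refine (setLIntegral_le_lintegral _ _).trans ?_
    rw [lintegral_indicator hSm]
  refine lt_of_le_of_lt h1 ?_
  have hHc : ContinuousOn (fun q : ℝ × ℝ => (1 - q.1) ^ α * ‖f (circleMap 0 q.1 q.2)‖ ^ p) S := by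
    have h1 : ContinuousOn (fun q : ℝ × ℝ => f (circleMap 0 q.1 q.2)) S := by
      apply hd.continuousOn.comp
      · apply Continuous.continuousOn
        unfold circleMap
        fun_prop
      · rintro ⟨r, θ⟩ ⟨h1, h2⟩
        exact circle_mem h1.1 h1.2
    apply ContinuousOn.mul
    · apply ContinuousOn.rpow_const
      · fun_prop
      · rintro ⟨r, θ⟩ ⟨h1, h2⟩
        left
        have := h1.2
        simp only at this ⊢
        linarith
    · exact h1.norm.rpow_const fun _ _ => Or.inr hp.le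
  have hHm : AEMeasurable H ((volume.restrict (Ioo (0:ℝ) 1)).prod
      (volume.restrict (Ioo (-Real.pi) Real.pi))) := by
    rw [Measure.prod_restrict, ← Measure.volume_eq_prod]
    exact ((hHc.aestronglyMeasurable hSm).aemeasurable).ennreal_ofReal
  rw [hS, Measure.volume_eq_prod, ← Measure.prod_restrict, lintegral_prod _ hHm]
  have hinner : ∀ r ∈ Ioo (0:ℝ) 1, ∫⁻ θ in Ioo (-Real.pi) Real.pi, H (r, θ) ≤
      ENNReal.ofReal (C * (1 - r) ^ α) := by
    intro r hr
    have hc := norm_cont hd hp hr.1 hr.2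
    have h3 : 0 ≤ (1 - r) ^ α := Real.rpow_nonneg (by linarith [hr.2]) _
    have hpi := Real.pi_pos
    have hint : IntegrableOn (fun θ : ℝ => (1 - r) ^ α * ‖f (circleMap 0 r θ)‖ ^ p)
        (Ioo (-Real.pi) Real.pi) :=
      ((continuous_const.mul hc).integrableOn_Icc (a := -Real.pi) (b := Real.pi)).mono_set
        Ioo_subset_Icc_self
    have hnn2 : 0 ≤ᵐ[volume.restrict (Ioo (-Real.pi) Real.pi)]
        (fun θ : ℝ => (1 - r) ^ α * ‖f (circleMap 0 r θ)‖ ^ p) := by
      filter_upwards with θ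
      simp only [Pi.zero_apply]
      positivity
    simp only [hH]
    rw [← ofReal_integral_eq_lintegral_ofReal hint hnn2]
    apply ENNReal.ofReal_le_ofReal
    rw [← integral_Ioc_eq_integral_Ioo, ← intervalIntegral.integral_of_le (by linarith),
      intervalIntegral.integral_const_mul]
    have hper : Function.Periodic (fun θ : ℝ => ‖f (circleMap 0 r θ)‖ ^ p) (2 * Real.pi) := by
      intro θ
      have := periodic_circleMap 0 r θ
      simp only [this]
    have e3 : ∫ θ in (-Real.pi)..Real.pi, ‖f (circleMap 0 r θ)‖ ^ p =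
        ∫ θ in (0:ℝ)..(2 * Real.pi), ‖f (circleMap 0 r θ)‖ ^ p := by
      have := hper.intervalIntegral_add_eq (-Real.pi) 0
      rw [zero_add, show -Real.pi + 2 * Real.pi = Real.pi by ring] at this
      exact this
    rw [e3, mul_comm C]
    exact mul_le_mul_of_nonneg_left (hC r hr) h3
  refine lt_of_le_of_lt (setLIntegral_mono' measurableSet_Ioo hinner) ?_
  have hint : IntegrableOn (fun r : ℝ => C * (1 - r) ^ α) (Ioo (0:ℝ) 1) := by
    have h2 : IntervalIntegrable (fun x : ℝ => x ^ α) volume 0 1 :=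
      intervalIntegral.intervalIntegrable_rpow' hα
    have h3 := (h2.comp_sub_left 1)
    simp only [sub_zero, sub_self] at h3
    have h4 := h3.symm.const_mul C
    rw [intervalIntegrable_iff_integrableOn_Ioc_of_le zero_le_one] at h4
    exact h4.mono_set Ioo_subset_Ioc_self
  calc ∫⁻ r in Ioo (0:ℝ) 1, ENNReal.ofReal (C * (1 - r) ^ α)
      ≤ ∫⁻ r in Ioo (0:ℝ) 1, ‖C * (1 - r) ^ α‖ₑ := by
        apply lintegral_mono
        intro r
        exact Real.ofReal_le_enorm _
    _ < ⊤ := hint.hasFiniteIntegral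

/-- growth of functions in a weighted Bergman space -/
lemma bergman_growth {p α : ℝ} (hp : 0 < p) {f : ℂ → ℂ} (hf : MemBergman p α f) :
    ∃ C : ℝ, ∀ z ∈ ball (0:ℂ) 1, ‖f z‖ ^ p * (1 - ‖z‖) ^ (α + 2) ≤ C := by
  obtain ⟨hd, hint⟩ := hf
  set G : ℂ → ℝ := fun z => ‖f z‖ ^ p * (1 - ‖z‖) ^ α with hG
  set J := ∫ z in ball (0:ℂ) 1, G z with hJ
  set κ : ℝ := min ((1/2) ^ α) ((3/2) ^ α) with hκ'
  have hκ : 0 < κ := by rw [hκ']; positivity
  refine ⟨4 * J / (Real.pi * κ), fun z hz => ?_⟩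
  rw [mem_ball_zero_iff] at hz
  set d : ℝ := 1 - ‖z‖ with hd'
  have hd0 : 0 < d := by linarith
  have hsub : ball z (d/2) ⊆ ball 0 1 := by
    intro w hw
    rw [mem_ball_zero_iff]
    rw [mem_ball, dist_eq_norm] at hw
    have := norm_le_norm_add_norm_sub' w z
    linarith
  have h1 := Pool.Agent.H402R2.SubMean.rpow_mul_le_lintegral (g := f) (w := z) (ρ := d/2) (p := p)
    (by positivity) hp (hd.mono hsub)
  have hda : 0 < d ^ α := by positivity
  have h2 : ∫⁻ w in ball z (d/2), ‖f w‖ₑ ^ p ≤ ∫⁻ w in ball z (d/2),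
      ENNReal.ofReal ((κ * d ^ α)⁻¹ * G w) := by
    apply setLIntegral_mono' measurableSet_ball
    intro w hw
    rw [← ofReal_norm, ENNReal.ofReal_rpow_of_nonneg (norm_nonneg _) hp.le]
    apply ENNReal.ofReal_le_ofReal
    rw [mem_ball, dist_eq_norm] at hw
    have h3 := norm_le_norm_add_norm_sub' w z
    have h4 := norm_le_norm_add_norm_sub w z
    have h5 : d / 2 ≤ 1 - ‖w‖ := by linarith
    have h6 : 1 - ‖w‖ ≤ 3 / 2 * d := by linarith
    have h7 : κ * d ^ α ≤ (1 - ‖w‖) ^ α := by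
      rcases le_or_gt 0 α with ha | ha
      · calc κ * d ^ α ≤ (1/2) ^ α * d ^ α := by
              apply mul_le_mul_of_nonneg_right (min_le_left _ _) hda.le
          _ = (d/2) ^ α := by
              rw [← Real.mul_rpow (by norm_num) hd0.le]; congr 1; ring
          _ ≤ _ := Real.rpow_le_rpow (by positivity) h5 ha
      · calc κ * d ^ α ≤ (3/2) ^ α * d ^ α := by
              apply mul_le_mul_of_nonneg_right (min_le_right _ _) hda.le
          _ = (3/2 * d) ^ α := by
              rw [← Real.mul_rpow (by norm_num) hd0.le]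
          _ ≤ _ := Real.rpow_le_rpow_of_nonpos (by linarith) h6 ha.le
    have h8 : 0 ≤ ‖f w‖ ^ p := by positivity
    rw [← div_eq_inv_mul, le_div_iff₀ (by positivity)]
    simp only [hG]
    exact mul_le_mul_of_nonneg_left h7 h8
  have hintc : IntegrableOn (fun w => (κ * d ^ α)⁻¹ * G w) (ball (0:ℂ) 1) := hint.const_mul _
  have hGnn : ∀ w ∈ ball (0:ℂ) 1, 0 ≤ G w := by
    intro w hw
    rw [mem_ball_zero_iff] at hw
    have : 0 ≤ (1 - ‖w‖) ^ α := Real.rpow_nonneg (by linarith) _
    simp only [hG]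
    positivity
  have h3 : ∫⁻ w in ball z (d/2), ENNReal.ofReal ((κ * d ^ α)⁻¹ * G w) ≤
      ENNReal.ofReal ((κ * d ^ α)⁻¹ * J) := by
    refine (lintegral_mono_set hsub).trans ?_
    rw [← ofReal_integral_eq_lintegral_ofReal hintc]
    · rw [integral_const_mul]
    · filter_upwards [ae_restrict_mem measurableSet_ball] with w hw
      simp only [Pi.zero_apply]
      exact mul_nonneg (by positivity) (hGnn w hw)
  have hJ0 : 0 ≤ J := by
    apply setIntegral_nonneg measurableSet_ball hGnn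
  have h4 := (h1.trans h2).trans h3
  rw [ENNReal.ofReal_le_ofReal_iff (by positivity)] at h4
  have h5 : ‖f z‖ ^ p * (Real.pi * (d/2)^2) * (κ * d ^ α) ≤ J := by
    have h6 := mul_le_mul_of_nonneg_right h4 (show 0 ≤ κ * d ^ α by positivity)
    have h7 : (κ * d ^ α)⁻¹ * J * (κ * d ^ α) = J := by field_simp
    rw [h7] at h6
    exact h6
  rw [le_div_iff₀ (by positivity), Real.rpow_add hd0, Real.rpow_two]
  nlinarith

/-- the function of `Map.lean` is in no `A^p_α` with `p ≥ 4 (α + 2)` -/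
theorem Data.not_bergman {X : ℕ → ℝ} {g : ℕ → ℂ → ℂ} {t T : ℕ → ℝ} (h : Data X g t T) {p α : ℝ}
    (hp : 0 < p) (hpα : 4 * (α + 2) ≤ p) : ¬ MemBergman p α (FF g) := by
  intro hf
  obtain ⟨C, hC⟩ := bergman_growth hp hf
  obtain ⟨n, hn⟩ := ((tendsto_rpow_atTop hp).comp tendsto_natCast_atTop_atTop).eventually_gt_atTop C
    |>.exists
  simp only [Function.comp_apply] at hn
  obtain ⟨h1, h2, -⟩ := h.mem_pt n
  have h3 := hC _ h1
  rw [h2, show 1 - (1 - t n) = t n by ring] at h3
  have hT := h.T1 n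
  have hT0 : 0 < T n := by linarith
  have h4 : (n * T n) ^ p ≤ ‖FF g ((1 - t n) * ζ n)‖ ^ p :=
    Real.rpow_le_rpow (by positivity) (h.growth n) hp.le
  have h5 : (t n) ^ (α + 2) = T n ^ (-(4 * (α + 2))) := by
    rw [h.tT n, one_div, ← Real.rpow_natCast, ← Real.rpow_neg hT0.le, ← Real.rpow_mul hT0.le]
    congr 1
    push_cast; ring
  rw [h5] at h3
  have h6 : (n * T n) ^ p * T n ^ (-(4 * (α + 2))) ≤ C :=
    (mul_le_mul_of_nonneg_right h4 (by positivity)).trans h3
  rw [Real.mul_rpow (by positivity) hT0.le, mul_assoc, ← Real.rpow_add hT0] at h6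
  have h7 : 1 ≤ T n ^ (p + -(4 * (α + 2))) := Real.one_le_rpow hT (by linarith)
  have h8 : 0 ≤ (n:ℝ) ^ p := by positivity
  nlinarith

end Q72.HN
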