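import Mathlib
import Pool.Agent.Q72.HN.Lower
import Pool.Agent.Q72.Psh.Basic

/-!
# The domain with tiny gates has infinite Hardy number
-/

set_option autoImplicit false

open Metric Set MeasureTheory Filter Topology
open scoped ENNReal

namespace Q72.HN

open Q72.Psh

lemma psh_of_cont {O : Set ℂ} {v : ℂ → ℝ} (hc : ContinuousOn v O)
    (hm : ∀ φ : ℂ → ℂ, AnalyticOnNhd ℂ φ (closedBall 0 1) → MapsTo φ (closedBall 0 1) O →
      v (φ 0) ≤ Real.circleAverage (fun ξ => v (φ ξ)) 0 1) :
    IsPSH O (fun z => ((v z : ℝ) : EReal)) := by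
  refine ⟨?_, fun x hx => EReal.coe_ne_top _, ?_⟩
  · intro x hx y hy
    beta_reduce at hy ⊢
    induction y with
    | bot => exact absurd hy (by simp)
    | top => exact Eventually.of_forall fun w => EReal.coe_lt_top _
    | coe y =>
      rw [EReal.coe_lt_coe_iff] at hy
      filter_upwards [(hc x hx).eventually_lt_const hy] with w hw
      rwa [EReal.coe_lt_coe_iff]
  · intro φ hφ hmφ h hh hle
    rw [EReal.coe_le_coe_iff]
    refine (hm φ hφ hmφ).trans ?_
    have hc1 : ContinuousOn (fun ξ => v (φ ξ)) (sphere (0:ℂ) 1) :=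
      hc.comp (hφ.continuousOn.mono sphere_subset_closedBall)
        (fun ξ hξ => hmφ (sphere_subset_closedBall hξ))
    apply Real.circleAverage_mono (hc1.circleIntegrable zero_le_one) (hh.circleIntegrable zero_le_one)
    intro ξ hξ
    rw [abs_one] at hξ
    exact EReal.coe_le_coe_iff.1 (hle ξ hξ)

/-- Jensen's inequality for `log max(|g|, ε)` -/
lemma log_max_avg {g : ℂ → ℂ} (hg : AnalyticOnNhd ℂ g (closedBall 0 1)) {ε : ℝ} (hε : 0 < ε) :
    Real.log (max ‖g 0‖ ε) ≤ Real.circleAverage (fun ξ => Real.log (max ‖g ξ‖ ε)) 0 1 := by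
  have hcont : ContinuousOn (fun ξ => Real.log (max ‖g ξ‖ ε)) (sphere (0:ℂ) 1) := by
    apply ContinuousOn.log
    · exact ((hg.continuousOn.mono sphere_subset_closedBall).norm).sup continuousOn_const
    · intro ξ _
      exact (lt_max_of_lt_right hε).ne'
  have hintL := hcont.circleIntegrable zero_le_one
  have hconst : Real.log ε ≤ Real.circleAverage (fun ξ => Real.log (max ‖g ξ‖ ε)) 0 1 := by
    rw [← Real.circleAverage_const (Real.log ε) (0:ℂ) 1]
    apply Real.circleAverage_mono (circleIntegrable_const _ _ _) hintL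
    intro ξ _
    exact Real.log_le_log hε (le_max_right _ _)
  rcases le_or_gt ‖g 0‖ ε with h | h
  · rw [max_eq_right h]; exact hconst
  rw [max_eq_left h.le]
  have h0 : g 0 ≠ 0 := by
    intro h0; rw [h0, norm_zero] at h; linarith
  have hg1 : AnalyticOnNhd ℂ g (closedBall 0 |1|) := by rwa [abs_one]
  have h3 : Real.log ‖g 0‖ ≤ Real.circleAverage (fun z => Real.log ‖g z‖) 0 1 := by
    rw [AnalyticOnNhd.circleAverage_log_norm one_ne_zero hg1 h0]
    have : 0 ≤ ∑ᶠ u, (MeromorphicOn.divisor g (closedBall 0 |1|) u : ℝ) * Real.log (1 * ‖0 - u‖⁻¹) := by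
      apply finsum_nonneg
      intro u
      by_cases hu : u ∈ closedBall (0:ℂ) |1|
      · apply mul_nonneg
        · have := (MeromorphicOn.AnalyticOnNhd.divisor_nonneg hg1) u
          exact_mod_cast this
        · by_cases huw : ‖0 - u‖ = 0
          · rw [huw]; simp
          · apply Real.log_nonneg
            have hpos : 0 < ‖0 - u‖ := lt_of_le_of_ne (norm_nonneg _) (Ne.symm huw)
            rw [one_mul, one_le_inv₀ hpos]
            rw [mem_closedBall, dist_comm, dist_eq_norm, abs_one] at hu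
            exact hu
      · rw [Function.locallyFinsuppWithin.apply_eq_zero_of_notMem _ hu]
        simp
    linarith
  refine h3.trans ?_
  have hlogint : CircleIntegrable (fun z => Real.log ‖g z‖) 0 1 :=
    (hg1.mono sphere_subset_closedBall).meromorphicOn.circleIntegrable_log_norm
  have hcod : g ⁻¹' {0}ᶜ ∈ codiscreteWithin (closedBall (0:ℂ) |1|) :=
    hg1.preimage_zero_mem_codiscreteWithin h0 (mem_closedBall_self (abs_nonneg _))
      ⟨⟨0, mem_closedBall_self (abs_nonneg _)⟩, (convex_closedBall _ _).isPreconnected⟩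
  have hcod' : g ⁻¹' {0}ᶜ ∈ codiscreteWithin (sphere (0:ℂ) |1|) :=
    codiscreteWithin_mono sphere_subset_closedBall hcod
  classical
  set F : ℂ → ℝ := fun z => if g z = 0 then Real.log (max ‖g z‖ ε) else Real.log ‖g z‖ with hF
  have hFe : (fun z => Real.log ‖g z‖) =ᶠ[codiscreteWithin (sphere (0:ℂ) |1|)] F := by
    filter_upwards [hcod'] with z hz
    have hz' : g z ≠ 0 := hz
    simp [hF, hz']
  rw [Real.circleAverage_congr_codiscreteWithin hFe one_ne_zero]
  apply Real.circleAverage_mono (hlogint.congr_codiscreteWithin hFe) hintL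
  intro z _
  simp only [hF]
  split_ifs with hz
  · exact le_rfl
  · exact Real.log_le_log (norm_pos_iff.2 hz) (le_max_left _ _)

/-- gate centres -/
noncomputable def γ (n : ℕ) : ℂ := ⟨3, τ n⟩
noncomputable def γ' (n : ℕ) : ℂ := ⟨-11, τ n⟩
noncomputable def MM (X : ℕ → ℝ) (n : ℕ) : ℝ := (2 * X (n+1)) ^ n
noncomputable def ee (X : ℕ → ℝ) (n : ℕ) : ℝ := Real.exp (-(MM X n / τ n))
noncomputable def rr (X : ℕ → ℝ) (n : ℕ) : ℝ := ee X n * (τ n / 16)
noncomputable def qq (n : ℕ) (z : ℂ) : ℂ := (z - γ n) / (z - γ' n)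

/-- gate, corridor and room -/
def UU (X : ℕ → ℝ) (n : ℕ) : Set ℂ := ball (γ n) (rr X n) ∪ (Cor X 3 n ∪ Room X n)

def D1 (X : ℕ → ℝ) : Set ℂ := B0 ∪ ⋃ n, UU X n

open Classical in
noncomputable def vv (X : ℕ → ℝ) (n : ℕ) (z : ℂ) : ℝ :=
  if z ∈ UU X n then MM X n else -(τ n * Real.log (max ‖qq n z‖ (ee X n)))

variable {X : ℕ → ℝ} {g : ℕ → ℂ → ℂ} {t T : ℕ → ℝ}

lemma Data.MMpos (h : Data X g t T) (n : ℕ) : 1 ≤ MM X n := by
  have := h.Xge (n+1)
  exact one_le_pow₀ (by linarith)

lemma Data.ee_lt (h : Data X g t T) (n : ℕ) : 0 < ee X n ∧ ee X n < 1 := by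
  refine ⟨Real.exp_pos _, ?_⟩
  rw [ee, Real.exp_lt_one_iff, neg_lt_zero]
  exact div_pos (by linarith [h.MMpos n]) (τ_pos n)

lemma Data.rr_lt (h : Data X g t T) (n : ℕ) : 0 < rr X n ∧ rr X n ≤ ee X n ∧ rr X n ≤ τ n / 16 := by
  have h1 := h.ee_lt n
  have h2 := τ_pos n
  have h3 := τ_le n
  refine ⟨by unfold rr; have := h1.1; positivity, ?_, ?_⟩
  · unfold rr; nlinarith [h1.1]
  · unfold rr; nlinarith [h1.2]

lemma isOpen_B0 : IsOpen B0 :=
  (isOpen_lt (Complex.continuous_re.abs) continuous_const).inter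
    (isOpen_lt (Complex.continuous_im.abs) continuous_const)

lemma isOpen_Cor (c : ℝ) (n : ℕ) : IsOpen (Cor X c n) :=
  (isOpen_lt continuous_const Complex.continuous_re).inter
    ((isOpen_lt Complex.continuous_re continuous_const).inter
      (isOpen_lt ((Complex.continuous_im.sub continuous_const).abs) continuous_const))

lemma isOpen_Room (n : ℕ) : IsOpen (Room X n) :=
  (isOpen_lt continuous_const Complex.continuous_re).inter
    ((isOpen_lt Complex.continuous_re continuous_const).inter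
      ((isOpen_lt continuous_const Complex.continuous_im).inter
        (isOpen_lt Complex.continuous_im continuous_const)))

lemma isOpen_UU (n : ℕ) : IsOpen (UU X n) := isOpen_ball.union ((isOpen_Cor _ _).union (isOpen_Room _))

lemma isOpen_D1 : IsOpen (D1 X) := isOpen_B0.union (isOpen_iUnion fun n => isOpen_UU n)

lemma isOpen_D2 : IsOpen (D2 X) :=
  isOpen_B0.union (isOpen_iUnion fun n => (isOpen_Cor _ _).union (isOpen_Room _))

/-- everything in `UU m` has these coordinates -/
lemma Data.ball_coord (h : Data X g t T) {n : ℕ} {z : ℂ} (hz : z ∈ ball (γ n) (rr X n)) :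
    |z.re - 3| < τ n / 16 ∧ |z.im - τ n| < τ n / 16 := by
  rw [mem_ball, dist_eq_norm] at hz
  have h1 := (h.rr_lt n).2.2
  have h2 := Complex.abs_re_le_norm (z - γ n)
  have h3 := Complex.abs_im_le_norm (z - γ n)
  simp only [Complex.sub_re, Complex.sub_im, γ] at h2 h3
  simp only [γ] at hz
  constructor <;> linarith

lemma Data.sep (h : Data X g t T) {m n : ℕ} (hmn : m ≠ n) {z : ℂ} (hn : z ∈ Cor X 3 n ∪ Room X n) :
    z ∉ UU X m := by
  intro hm
  have hXn := h.Xge n
  have hXm := h.Xge m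
  have tn := τ_pos n
  have tm := τ_pos m
  have tn2 := τ_le n
  have tm2 := τ_le m
  -- im of a corridor
  have key : ∀ i j : ℕ, i < j → ∀ w : ℂ, |w.im - τ j| < τ j / 8 → w.im < τ i - τ i / 8 := by
    intro i j hij w hw
    have h1 := τ_anti hij
    have h2 := τ_pos i
    rw [abs_lt] at hw
    linarith [hw.2]
  rcases hn with hn | hn
  · obtain ⟨h1, h2, h3⟩ := hn
    -- imaginary part of z close to τ n
    rcases hm with hm | hm | hm
    · have h4 := (h.ball_coord hm).2
      rcases lt_or_gt_of_ne hmn with h5 | h5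
      · have := key m n h5 z h3
        rw [abs_lt] at h4; linarith [h4.1]
      · have := key n m h5 z (h4.trans (by linarith))
        rw [abs_lt] at h3; linarith [h3.1]
    · have h4 := hm.2.2
      rcases lt_or_gt_of_ne hmn with h5 | h5
      · have := key m n h5 z h3
        rw [abs_lt] at h4; linarith [h4.1]
      · have := key n m h5 z h4
        rw [abs_lt] at h3; linarith [h3.1]
    · obtain ⟨h4, h5, h6, h7⟩ := hm
      rcases lt_or_gt_of_ne hmn with h8 | h8
      · have := key m n h8 z h3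
        linarith
      · have := h.Xmono (show n+1 ≤ m by omega)
        have := h.Xs n
        linarith
  · obtain ⟨h1, h2, h3, h4⟩ := hn
    rcases hm with hm | hm | hm
    · have h5 := (h.ball_coord hm).1
      rw [abs_lt] at h5; linarith [h5.2]
    · obtain ⟨h5, h6, h7⟩ := hm
      rcases lt_or_gt_of_ne hmn with h8 | h8
      · have := h.Xmono (show m+1 ≤ n by omega)
        have := h.Xs m
        linarith
      · have := key n m h8 z h7
        linarith
    · obtain ⟨h5, h6, h7, h8⟩ := hm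
      rcases lt_or_gt_of_ne hmn with h9 | h9
      · have := h.Xmono (show m+1 ≤ n by omega)
        linarith
      · have := h.Xmono (show n+1 ≤ m by omega)
        linarith

lemma Data.sep0 (h : Data X g t T) {n : ℕ} {z : ℂ} (hn : z ∈ Cor X 3 n ∪ Room X n) : z ∉ B0 := by
  intro hz
  have h1 := (abs_lt.1 hz.1).2
  have h2 := h.Xge n
  rcases hn with hn | hn
  · linarith [hn.1]
  · linarith [hn.1]

lemma Data.D1_re (h : Data X g t T) {z : ℂ} (hz : z ∈ D1 X) : -3 < z.re := by
  rcases hz with hz | hz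
  · exact (abs_lt.1 hz.1).1
  · rw [mem_iUnion] at hz
    obtain ⟨n, hn⟩ := hz
    have h2 := h.Xge n
    have h3 := τ_le n
    rcases hn with hn | hn | hn
    · have := (abs_lt.1 (h.ball_coord hn).1).1
      linarith
    · linarith [hn.1]
    · linarith [hn.1]

lemma qq_norm {n : ℕ} {z : ℂ} (hz : -3 < z.re) : ‖qq n z‖ < 1 ∧ 8 ≤ ‖z - γ' n‖ := by
  have h1 : 8 ≤ ‖z - γ' n‖ := by
    have := Complex.re_le_norm (z - γ' n)
    simp only [Complex.sub_re, γ'] at this
    simp only [γ']
    linarith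
  refine ⟨?_, h1⟩
  rw [qq, norm_div, div_lt_one (by linarith), Complex.norm_def, Complex.norm_def]
  apply Real.sqrt_lt_sqrt (Complex.normSq_nonneg _)
  rw [Complex.normSq_apply, Complex.normSq_apply]
  simp only [γ, γ', Complex.sub_re, Complex.sub_im]
  nlinarith

/-- the other open piece -/
def WW (X : ℕ → ℝ) (n : ℕ) : Set ℂ := B0 ∪ (ball (γ n) (rr X n) ∪ ⋃ m ∈ {m : ℕ | m ≠ n}, UU X m)

lemma isOpen_WW (n : ℕ) : IsOpen (WW X n) :=
  isOpen_B0.union (isOpen_ball.union (isOpen_biUnion fun m _ => isOpen_UU m))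

lemma Data.vv_UU (n : ℕ) {z : ℂ} (hz : z ∈ UU X n) : vv X n z = MM X n := by
  rw [vv, if_pos hz]

lemma Data.log_ee (n : ℕ) : -(τ n * Real.log (ee X n)) = MM X n := by
  have := τ_pos n
  rw [ee, Real.log_exp]; field_simp

lemma WW_sub (n : ℕ) : WW X n ⊆ D1 X := by
  rintro z (hz | hz | hz)
  · exact Or.inl hz
  · exact Or.inr (mem_iUnion.2 ⟨n, Or.inl hz⟩)
  · rw [mem_iUnion₂] at hz
    obtain ⟨m, -, hm⟩ := hz
    exact Or.inr (mem_iUnion.2 ⟨m, hm⟩)

lemma Data.vv_WW (h : Data X g t T) (n : ℕ) {z : ℂ} (hz : z ∈ WW X n) :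
    vv X n z = -(τ n * Real.log (max ‖qq n z‖ (ee X n))) := by
  by_cases hU : z ∈ UU X n
  · rw [vv, if_pos hU]
    have hb : z ∈ ball (γ n) (rr X n) := by
      rcases hz with hz | hz | hz
      · rcases hU with hU | hU
        · exact hU
        · exact absurd hz (h.sep0 hU)
      · exact hz
      · rw [mem_iUnion₂] at hz
        obtain ⟨m, hm, hz⟩ := hz
        rcases hU with hU | hU
        · exact hU
        · exact absurd hz (h.sep hm hU)
    have h1 := (qq_norm (n := n) (h.D1_re (Or.inr (mem_iUnion.2 ⟨n, Or.inl hb⟩)))).2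
    have h2 : ‖qq n z‖ ≤ ee X n := by
      rw [qq, norm_div, div_le_iff₀ (by linarith)]
      rw [mem_ball, dist_eq_norm] at hb
      have h3 := h.rr_lt n
      nlinarith [(h.ee_lt n).1]
    rw [max_eq_right h2, Data.log_ee]
  · rw [vv, if_neg hU]

lemma D1_cover (n : ℕ) {z : ℂ} (hz : z ∈ D1 X) : z ∈ UU X n ∨ z ∈ WW X n := by
  rcases hz with hz | hz
  · exact Or.inr (Or.inl hz)
  · rw [mem_iUnion] at hz
    obtain ⟨m, hm⟩ := hz
    by_cases hmn : m = n
    · left; rw [← hmn]; exact hm
    · right; right; right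
      exact mem_iUnion₂.2 ⟨m, hmn, hm⟩

lemma Data.vv_nonneg (h : Data X g t T) (n : ℕ) {z : ℂ} (hz : z ∈ D1 X) : 0 ≤ vv X n z := by
  rcases D1_cover n hz with h1 | h1
  · rw [Data.vv_UU n h1]; linarith [h.MMpos n]
  · rw [h.vv_WW n h1]
    have h2 := (qq_norm (n := n) (h.D1_re hz)).1
    have h3 := h.ee_lt n
    have h4 : Real.log (max ‖qq n z‖ (ee X n)) ≤ 0 :=
      Real.log_nonpos (le_max_of_le_right h3.1.le) (max_le h2.le h3.2.le)
    have h5 := τ_pos n
    nlinarith

lemma Data.cont_WW (h : Data X g t T) (n : ℕ) :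
    ContinuousOn (fun z => -(τ n * Real.log (max ‖qq n z‖ (ee X n)))) (WW X n) := by
  have hq : ContinuousOn (qq n) (WW X n) := by
    unfold qq
    apply ContinuousOn.div (by fun_prop) (by fun_prop)
    intro z hz h0
    have h1 := (qq_norm (n := n) (h.D1_re (WW_sub n hz))).2
    rw [h0, norm_zero] at h1
    linarith
  apply ContinuousOn.neg
  apply ContinuousOn.mul continuousOn_const
  apply ContinuousOn.log (hq.norm.sup continuousOn_const)
  intro z _
  exact (lt_max_of_lt_right (h.ee_lt n).1).ne'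

lemma Data.vv_cont (h : Data X g t T) (n : ℕ) : ContinuousOn (vv X n) (D1 X) := by
  intro z hz
  apply ContinuousAt.continuousWithinAt
  rcases D1_cover n hz with h1 | h1
  · have h2 : vv X n =ᶠ[𝓝 z] fun _ => MM X n := by
      filter_upwards [(isOpen_UU n).mem_nhds h1] with w hw
      exact Data.vv_UU n hw
    exact continuousAt_const.congr h2.symm
  · have h2 : vv X n =ᶠ[𝓝 z] (fun z => -(τ n * Real.log (max ‖qq n z‖ (ee X n)))) := by
      filter_upwards [(isOpen_WW n).mem_nhds h1] with w hw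
      exact h.vv_WW n hw
    exact ((h.cont_WW n).continuousAt ((isOpen_WW n).mem_nhds h1)).congr h2.symm

lemma Data.psh (h : Data X g t T) (n : ℕ) :
    IsPSH (D1 X) (fun z => ((-(vv X n z) : ℝ) : EReal)) := by
  apply IsPSH.of_local
  intro z hz
  rcases D1_cover n hz with h1 | h1
  · refine ⟨UU X n, isOpen_UU n, h1, ?_⟩
    apply psh_of_cont
    · exact ((h.vv_cont n).mono (fun w hw => Or.inr (mem_iUnion.2 ⟨n, hw⟩))).neg
    · intro φ hφ hm
      rw [Data.vv_UU n (hm (mem_closedBall_self zero_le_one))]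
      have e : Real.circleAverage (fun ξ => -vv X n (φ ξ)) 0 1 =
          Real.circleAverage (fun _ => -MM X n) 0 1 := by
        apply Real.circleAverage_congr_sphere
        intro ξ hξ
        rw [abs_one] at hξ
        simp only
        rw [Data.vv_UU n (hm (sphere_subset_closedBall hξ))]
      rw [e, Real.circleAverage_const]
  · refine ⟨WW X n, isOpen_WW n, h1, ?_⟩
    apply psh_of_cont
    · exact ((h.vv_cont n).mono (WW_sub n)).neg
    · intro φ hφ hm
      rw [h.vv_WW n (hm (mem_closedBall_self zero_le_one)), neg_neg]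
      have e : Real.circleAverage (fun ξ => -vv X n (φ ξ)) 0 1 =
          Real.circleAverage (fun ξ => τ n • Real.log (max ‖qq n (φ ξ)‖ (ee X n))) 0 1 := by
        apply Real.circleAverage_congr_sphere
        intro ξ hξ
        rw [abs_one] at hξ
        simp only
        rw [h.vv_WW n (hm (sphere_subset_closedBall hξ)), neg_neg, smul_eq_mul]
      rw [e, Real.circleAverage_fun_smul, smul_eq_mul]
      apply mul_le_mul_of_nonneg_left _ (τ_pos n).le
      apply log_max_avg (g := fun ξ => qq n (φ ξ)) _ (h.ee_lt n).1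
      intro ξ hξ
      unfold qq
      apply AnalyticAt.div
      · exact (hφ ξ hξ).sub analyticAt_const
      · exact (hφ ξ hξ).sub analyticAt_const
      · intro h0
        have h1 := (qq_norm (n := n) (h.D1_re (WW_sub n (hm hξ)))).2
        rw [h0, norm_zero] at h1
        linarith

end Q72.HN
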