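import Mathlib
import Pool.Agent.Q72.HN.Upper

/-!
# All holomorphic maps into the domain with tiny gates are in all Hardy spaces
-/

set_option autoImplicit false

open Metric Set MeasureTheory Filter Topology
open scoped ENNReal

namespace Q72.HN

open Q72.Psh

variable {X : ℕ → ℝ} {g : ℕ → ℂ → ℂ} {t T : ℕ → ℝ}

lemma τ_tendsto : Tendsto τ atTop (𝓝 0) := τ_sum.summable.tendsto_atTop_zero

lemma γ_tendsto : Tendsto γ atTop (𝓝 3) := by
  have h1 : Tendsto (fun n => (3:ℂ) + ((τ n : ℝ) : ℂ) * Complex.I) atTop (𝓝 (3 + ((0:ℝ):ℂ) * Complex.I)) := by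
    apply Tendsto.const_add
    apply Tendsto.mul_const
    exact (Complex.continuous_ofReal.tendsto 0).comp τ_tendsto
  simp only [Complex.ofReal_zero, zero_mul, add_zero] at h1
  refine h1.congr (fun n => ?_)
  apply Complex.ext <;> simp [γ]

lemma Data.X_tendsto (h : Data X g t T) : ∀ n : ℕ, (n:ℝ) ≤ X n := by
  intro n
  induction n with
  | zero => rw [h.X0]; norm_num
  | succ n ih => have := h.Xs n; push_cast; linarith

lemma Data.ne3 (h : Data X g t T) {w : ℂ} (hw : w ∈ D1 X) : w ≠ 3 := by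
  rintro rfl
  rcases hw with hw | hw
  · have := (abs_lt.1 hw.1).2
    simp at this
  · rw [mem_iUnion] at hw
    obtain ⟨n, hn⟩ := hw
    have h2 := τ_pos n
    rcases hn with hn | hn | hn
    · have := (abs_lt.1 (h.ball_coord hn).2).1
      simp at this; linarith
    · have := (abs_lt.1 hn.2.2).1
      simp at this; linarith
    · have := hn.2.2.1
      simp at this; linarith

lemma Data.eventually_notMem (h : Data X g t T) {w : ℂ} (hw : w ∈ D1 X) :
    ∀ᶠ n in atTop, w ∉ UU X n := by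
  have hne : 0 < ‖w - 3‖ := norm_pos_iff.2 (sub_ne_zero.2 (h.ne3 hw))
  have h1 : ∀ᶠ n in atTop, ‖w - 3‖ / 2 < ‖w - γ n‖ := by
    have h2 : Tendsto (fun n => ‖w - γ n‖) atTop (𝓝 ‖w - 3‖) := (γ_tendsto.const_sub w).norm
    exact h2.eventually_const_lt (by linarith)
  have h2 : ∀ᶠ n in atTop, τ n < ‖w - 3‖ / 2 := τ_tendsto.eventually_lt_const (by linarith)
  have h3 : ∀ᶠ n in atTop, w.im ≤ 0 ∨ τ n < w.im / 2 := by
    rcases le_or_gt w.im 0 with h0 | h0
    · exact Eventually.of_forall fun n => Or.inl h0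
    · filter_upwards [τ_tendsto.eventually_lt_const (show (0:ℝ) < w.im / 2 by linarith)] with n hn
      exact Or.inr hn
  have h4 : ∀ᶠ n : ℕ in atTop, w.re < (n:ℝ) := tendsto_natCast_atTop_atTop.eventually_gt_atTop _
  filter_upwards [h1, h2, h3, h4] with n h1 h2 h3 h4 hn
  have hτ := τ_pos n
  have hr := h.rr_lt n
  rcases hn with hn | hn | hn
  · rw [mem_ball, dist_eq_norm] at hn
    linarith [hr.2.2]
  · have := abs_lt.1 hn.2.2
    rcases h3 with h3 | h3 <;> linarith [this.1, this.2]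
  · have := h.X_tendsto n
    linarith [hn.1]

lemma Data.vsum (h : Data X g t T) {w : ℂ} (hw : w ∈ D1 X) : Summable (fun n => vv X n w) := by
  have hne : 0 < ‖w - 3‖ := norm_pos_iff.2 (sub_ne_zero.2 (h.ne3 hw))
  have h1 : ∀ᶠ n in atTop, ‖w - 3‖ / 2 < ‖w - γ n‖ := by
    have h2 : Tendsto (fun n => ‖w - γ n‖) atTop (𝓝 ‖w - 3‖) := (γ_tendsto.const_sub w).norm
    exact h2.eventually_const_lt (by linarith)
  set K : ℝ := (‖w‖ + 12) / (‖w - 3‖ / 2) with hK
  have hbound : ∀ᶠ n in cofinite, ‖vv X n w‖ ≤ τ n * K := by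
    rw [Nat.cofinite_eq_atTop]
    filter_upwards [h1, h.eventually_notMem hw] with n h1 h2
    rw [Real.norm_eq_abs, abs_of_nonneg (h.vv_nonneg n hw), vv, if_neg h2, ← mul_neg]
    have hτ := τ_pos n
    apply mul_le_mul_of_nonneg_left _ hτ.le
    have h3 := (qq_norm (n := n) (h.D1_re hw)).2
    have h4 : 0 < ‖w - γ n‖ := by linarith
    have h5 : 0 < ‖qq n w‖ := by rw [qq, norm_div]; positivity
    have h6 : Real.log ‖qq n w‖ ≤ Real.log (max ‖qq n w‖ (ee X n)) :=
      Real.log_le_log h5 (le_max_left _ _)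
    have h7 : -Real.log ‖qq n w‖ = Real.log (‖w - γ' n‖ / ‖w - γ n‖) := by
      rw [← Real.log_inv, qq, norm_div, inv_div]
    have h8 : Real.log (‖w - γ' n‖ / ‖w - γ n‖) ≤ ‖w - γ' n‖ / ‖w - γ n‖ := by
      have := Real.log_le_sub_one_of_pos (show 0 < ‖w - γ' n‖ / ‖w - γ n‖ by positivity)
      linarith
    have h9 : ‖w - γ' n‖ ≤ ‖w‖ + 12 := by
      refine (norm_sub_le _ _).trans ?_
      have := Complex.norm_le_abs_re_add_abs_im (γ' n)
      simp only [γ'] at this ⊢
      rw [abs_of_pos hτ, show |(-11:ℝ)| = 11 by norm_num] at this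
      have := τ_le n
      linarith
    have h10 : ‖w - γ' n‖ / ‖w - γ n‖ ≤ K := by
      rw [hK]
      apply div_le_div₀ (by positivity) h9 (by positivity) h1.le
    linarith
  exact Summable.of_norm_bounded_eventually (τ_sum.summable.mul_right K) hbound

lemma Data.norm_UU (h : Data X g t T) {n : ℕ} {z : ℂ} (hz : z ∈ UU X n) : ‖z‖ ≤ 2 * X (n+1) := by
  have h1 := Complex.norm_le_abs_re_add_abs_im z
  have hX := h.Xge n
  have hX1 := h.Xs n
  have hτ := τ_pos n
  have hτ1 := τ_le n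
  have h2 : |z.re| ≤ X (n+1) ∧ |z.im| ≤ X (n+1) := by
    rcases hz with hz | hz | hz
    · have h3 := h.ball_coord hz
      rw [abs_lt, abs_lt] at h3
      constructor <;> rw [abs_le] <;> constructor <;> linarith [h3.1.1, h3.1.2, h3.2.1, h3.2.2]
    · obtain ⟨h3, h4, h5⟩ := hz
      rw [abs_lt] at h5
      constructor <;> rw [abs_le] <;> constructor <;> linarith [h5.1, h5.2]
    · obtain ⟨h3, h4, h5, h6⟩ := hz
      constructor <;> rw [abs_le] <;> constructor <;> linarith
  linarith [h2.1, h2.2]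

/-- every holomorphic map into `D1` is in all Hardy spaces -/
theorem Data.hardy (h : Data X g t T) {p : ℝ} (hp : 0 < p) {f : ℂ → ℂ}
    (hf : DifferentiableOn ℂ f (ball 0 1)) (hm : MapsTo f (ball 0 1) (D1 X)) : MemHardy p f := by
  refine ⟨hf, ?_⟩
  obtain ⟨n0, hn0⟩ := exists_nat_ge p
  set K : ℝ := (2 * X n0) ^ p with hK
  have hX0 := h.Xge n0
  have hf0 := hm (mem_ball_self one_pos)
  refine ⟨2 * Real.pi * (K + ∑' n, vv X n (f 0)), fun r hr => ?_⟩
  set φ : ℂ → ℂ := fun ξ => f (r * ξ) with hφ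
  have hmem : ∀ ξ ∈ closedBall (0:ℂ) 1, (r * ξ : ℂ) ∈ ball (0:ℂ) 1 := by
    intro ξ hξ
    rw [mem_closedBall_zero_iff] at hξ
    rw [mem_ball_zero_iff, norm_mul, Complex.norm_real, Real.norm_eq_abs, abs_of_pos hr.1]
    nlinarith [hr.1, hr.2, norm_nonneg ξ]
  have hφa : AnalyticOnNhd ℂ φ (closedBall 0 1) := by
    intro ξ hξ
    have h1 : AnalyticAt ℂ f (r * ξ) := (hf.analyticOnNhd isOpen_ball) _ (hmem ξ hξ)
    have h2 : AnalyticAt ℂ (fun ξ : ℂ => (r:ℂ) * ξ) ξ := analyticAt_const.mul analyticAt_id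
    exact h1.fun_comp h2
  have hφm : MapsTo φ (closedBall 0 1) (D1 X) := fun ξ hξ => hm (hmem ξ hξ)
  -- compactness
  obtain ⟨s, hs⟩ := (isCompact_closedBall (0:ℂ) 1).image_of_continuousOn hφa.continuousOn
    |>.elim_finite_subcover (fun n : ℕ => B0 ∪ UU X n)
      (fun n => isOpen_B0.union (isOpen_UU n)) (by
        rintro _ ⟨ξ, hξ, rfl⟩
        rcases hφm hξ with h1 | h1
        · exact mem_iUnion.2 ⟨0, Or.inl h1⟩
        · rw [mem_iUnion] at h1 ⊢
          obtain ⟨n, hn⟩ := h1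
          exact ⟨n, Or.inr hn⟩)
  have hpt : ∀ ξ ∈ sphere (0:ℂ) 1, ‖φ ξ‖ ^ p ≤ K + ∑ n ∈ s, vv X n (φ ξ) := by
    intro ξ hξ
    have hξ' := sphere_subset_closedBall hξ
    have h1 := hs ⟨ξ, hξ', rfl⟩
    rw [mem_iUnion₂] at h1
    obtain ⟨n, hns, hn⟩ := h1
    have hnn : ∀ m ∈ s, 0 ≤ vv X m (φ ξ) := fun m _ => h.vv_nonneg m (hφm hξ')
    have hsum0 : 0 ≤ ∑ n ∈ s, vv X n (φ ξ) := Finset.sum_nonneg hnn
    have hK0 : 0 ≤ K := by rw [hK]; positivity
    rcases hn with hn | hn
    · have h2 : ‖φ ξ‖ ≤ 2 * X n0 := by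
        have := Complex.norm_le_abs_re_add_abs_im (φ ξ)
        linarith [hn.1, hn.2]
      have h3 : ‖φ ξ‖ ^ p ≤ K := Real.rpow_le_rpow (norm_nonneg _) h2 hp.le
      linarith
    · have h2 := h.norm_UU hn
      rcases lt_or_ge n n0 with h3 | h3
      · have h4 : ‖φ ξ‖ ≤ 2 * X n0 := by
          have := h.Xmono (show n + 1 ≤ n0 by omega)
          linarith
        have h3 : ‖φ ξ‖ ^ p ≤ K := Real.rpow_le_rpow (norm_nonneg _) h4 hp.le
        linarith
      · have h4 : ‖φ ξ‖ ^ p ≤ MM X n := by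
          have hX1 := h.Xge (n+1)
          calc ‖φ ξ‖ ^ p ≤ (2 * X (n+1)) ^ p := Real.rpow_le_rpow (norm_nonneg _) h2 hp.le
            _ ≤ (2 * X (n+1)) ^ (n:ℝ) := by
                apply Real.rpow_le_rpow_of_exponent_le (by linarith)
                have : (n0:ℝ) ≤ n := by exact_mod_cast h3
                linarith
            _ = MM X n := by rw [Real.rpow_natCast, MM]
        have h5 : MM X n ≤ ∑ n ∈ s, vv X n (φ ξ) := by
          rw [← Data.vv_UU n hn]
          exact Finset.single_le_sum hnn hns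
        linarith
  have hcont : ∀ n, ContinuousOn (fun ξ => vv X n (φ ξ)) (sphere (0:ℂ) 1) := by
    intro n
    exact (h.vv_cont n).comp (hφa.continuousOn.mono sphere_subset_closedBall)
      (fun ξ hξ => hφm (sphere_subset_closedBall hξ))
  have havg : ∀ n, Real.circleAverage (fun ξ => vv X n (φ ξ)) 0 1 ≤ vv X n (f 0) := by
    intro n
    have h1 := (h.psh n).2.2 φ hφa hφm (fun ξ => -vv X n (φ ξ)) (hcont n).neg
      (fun ξ _ => le_rfl)
    rw [EReal.coe_le_coe_iff] at h1
    have h2 : Real.circleAverage (fun ξ => -vv X n (φ ξ)) 0 1 =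
        -Real.circleAverage (fun ξ => vv X n (φ ξ)) 0 1 := by
      have := Real.circleAverage_fun_smul (a := (-1:ℝ)) (f := fun ξ => vv X n (φ ξ)) (c := 0) (R := 1)
      simpa using this
    rw [h2] at h1
    have h3 : φ 0 = f 0 := by simp [hφ]
    rw [h3] at h1
    linarith
  have hci : ContinuousOn (fun ξ => ‖φ ξ‖ ^ p) (sphere (0:ℂ) 1) :=
    ((hφa.continuousOn.mono sphere_subset_closedBall).norm).rpow_const (fun _ _ => Or.inr hp.le)
  have h1 : Real.circleAverage (fun ξ => ‖φ ξ‖ ^ p) 0 1 ≤ K + ∑' n, vv X n (f 0) := by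
    calc Real.circleAverage (fun ξ => ‖φ ξ‖ ^ p) 0 1
        ≤ Real.circleAverage (fun ξ => K + ∑ n ∈ s, vv X n (φ ξ)) 0 1 := by
          apply Real.circleAverage_mono (hci.circleIntegrable zero_le_one)
          · exact (continuousOn_const.add (continuousOn_finsetSum s fun n _ => hcont n)).circleIntegrable
              zero_le_one
          · intro ξ hξ
            rw [abs_one] at hξ
            exact hpt ξ hξ
      _ = K + ∑ n ∈ s, Real.circleAverage (fun ξ => vv X n (φ ξ)) 0 1 := by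
          rw [Real.circleAverage_fun_add (continuousOn_const.circleIntegrable zero_le_one)
            ((continuousOn_finsetSum s fun n _ => hcont n).circleIntegrable zero_le_one),
            Real.circleAverage_const, Real.circleAverage_fun_sum]
          intro n _
          exact (hcont n).circleIntegrable zero_le_one
      _ ≤ K + ∑ n ∈ s, vv X n (f 0) := by
          gcongr with n _
          exact havg n
      _ ≤ K + ∑' n, vv X n (f 0) := by
          gcongr
          exact (h.vsum hf0).sum_le_tsum s (fun n _ => h.vv_nonneg n hf0)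
  rw [Real.circleAverage, smul_eq_mul] at h1
  have e1 : ∀ θ : ℝ, φ (circleMap 0 1 θ) = f (circleMap 0 r θ) := by
    intro θ; simp [hφ, circleMap]
  simp only [e1] at h1
  have hpi : 0 < 2 * Real.pi := by positivity
  rw [inv_mul_le_iff₀ hpi] at h1
  exact h1

lemma convex_B0 : Convex ℝ B0 := by
  have e : B0 = ({z : ℂ | z.re < 3} ∩ {z : ℂ | -3 < z.re}) ∩
      ({z : ℂ | z.im < 3} ∩ {z : ℂ | -3 < z.im}) := by
    ext z
    simp only [B0, mem_inter_iff, mem_setOf_eq, abs_lt]
    tauto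
  rw [e]
  exact ((convex_halfSpace_re_lt _).inter (convex_halfSpace_re_gt _)).inter
    ((convex_halfSpace_im_lt _).inter (convex_halfSpace_im_gt _))

lemma convex_Cor (c : ℝ) (n : ℕ) : Convex ℝ (Cor X c n) := by
  have e : Cor X c n = ({z : ℂ | z.re < X n + 1} ∩ {z : ℂ | c < z.re}) ∩
      ({z : ℂ | z.im < τ n + τ n / 8} ∩ {z : ℂ | τ n - τ n / 8 < z.im}) := by
    ext z
    simp only [Cor, mem_inter_iff, mem_setOf_eq, abs_lt]
    constructor
    · rintro ⟨h1, h2, h3, h4⟩
      exact ⟨⟨h2, h1⟩, by linarith, by linarith⟩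
    · rintro ⟨⟨h2, h1⟩, h3, h4⟩
      exact ⟨h1, h2, by linarith, by linarith⟩
  rw [e]
  exact ((convex_halfSpace_re_lt _).inter (convex_halfSpace_re_gt _)).inter
    ((convex_halfSpace_im_lt _).inter (convex_halfSpace_im_gt _))

lemma convex_Room (n : ℕ) : Convex ℝ (Room X n) := by
  have e : Room X n = ({z : ℂ | z.re < X (n+1)} ∩ {z : ℂ | X n < z.re}) ∩
      ({z : ℂ | z.im < X (n+1)} ∩ {z : ℂ | τ n - τ n / 8 < z.im}) := by
    ext z
    simp only [Room, mem_inter_iff, mem_setOf_eq]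
    tauto
  rw [e]
  exact ((convex_halfSpace_re_lt _).inter (convex_halfSpace_re_gt _)).inter
    ((convex_halfSpace_im_lt _).inter (convex_halfSpace_im_gt _))

lemma zero_B0 : (0:ℂ) ∈ B0 := by simp [B0]

lemma Data.pre_CorRoom (h : Data X g t T) {c : ℝ} (hc : c < 10) (n : ℕ) :
    IsPreconnected (Cor X c n ∪ Room X n) := by
  have hX := h.Xge n
  have hX1 := h.Xs n
  have hτ := τ_pos n
  have hτ1 := τ_le n
  apply IsPreconnected.union (⟨X n + 1/2, τ n⟩ : ℂ)
  · refine ⟨by simp only; linarith, by simp only; linarith, ?_⟩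
    simp only [sub_self, abs_zero]; positivity
  · refine ⟨by simp only; linarith, by simp only; linarith, by simp only; linarith, by simp only; linarith⟩
  · exact (convex_Cor c n).isPreconnected
  · exact (convex_Room n).isPreconnected

lemma Data.conn2 (h : Data X g t T) : IsConnected (D2 X) := by
  refine ⟨⟨0, Or.inl zero_B0⟩, ?_⟩
  have e : D2 X = ⋃ n, (B0 ∪ (Cor X 2 n ∪ Room X n)) := by
    rw [D2, union_iUnion]
  rw [e]
  apply isPreconnected_iUnion
  · exact ⟨0, mem_iInter.2 fun n => Or.inl zero_B0⟩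
  · intro n
    have hX := h.Xge n
    have hτ := τ_pos n
    have hτ1 := τ_le n
    apply IsPreconnected.union (⟨5/2, τ n⟩ : ℂ)
    · constructor
      · rw [abs_lt]; constructor <;> norm_num
      · rw [abs_lt]; constructor <;> simp only <;> linarith
    · left
      refine ⟨by simp only; norm_num, by simp only; linarith, ?_⟩
      simp only [sub_self, abs_zero]; positivity
    · exact convex_B0.isPreconnected
    · exact h.pre_CorRoom (by norm_num) n

lemma Data.conn1 (h : Data X g t T) : IsConnected (D1 X) := by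
  refine ⟨⟨0, Or.inl zero_B0⟩, ?_⟩
  have e : D1 X = ⋃ n, (B0 ∪ UU X n) := by
    rw [D1, union_iUnion]
  rw [e]
  apply isPreconnected_iUnion
  · exact ⟨0, mem_iInter.2 fun n => Or.inl zero_B0⟩
  · intro n
    have hX := h.Xge n
    have hτ := τ_pos n
    have hτ1 := τ_le n
    have hr := h.rr_lt n
    have hball : ∀ s : ℝ, |s| < rr X n → (⟨3 + s, τ n⟩ : ℂ) ∈ ball (γ n) (rr X n) := by
      intro s hs
      rw [mem_ball, dist_eq_norm]
      have : (⟨3 + s, τ n⟩ : ℂ) - γ n = ((s : ℝ) : ℂ) := by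
        apply Complex.ext <;> simp [γ]
      rw [this, Complex.norm_real]; exact hs
    have hr2 : |rr X n / 2| < rr X n := by rw [abs_of_pos (by linarith [hr.1])]; linarith [hr.1]
    have hr3 : |-(rr X n / 2)| < rr X n := by rw [abs_neg]; exact hr2
    apply IsPreconnected.union (⟨3 + -(rr X n / 2), τ n⟩ : ℂ)
    · constructor
      · rw [abs_lt]; constructor <;> simp only <;> linarith [hr.1, hr.2.2]
      · rw [abs_lt]; constructor <;> simp only <;> linarith
    · left; exact hball _ hr3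
    · exact convex_B0.isPreconnected
    · apply IsPreconnected.union (⟨3 + rr X n / 2, τ n⟩ : ℂ)
      · exact hball _ hr2
      · left
        refine ⟨by simp only; linarith [hr.1], by simp only; linarith [hr.2.2], ?_⟩
        simp only [sub_self, abs_zero]; positivity
      · exact (convex_ball _ _).isPreconnected
      · exact h.pre_CorRoom (by norm_num) n

lemma Data.agree (h : Data X g t T) : D1 X ∩ {z | 6 < ‖z‖} = D2 X ∩ {z | 6 < ‖z‖} := by
  ext z
  constructor
  · rintro ⟨hz, hz6⟩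
    refine ⟨?_, hz6⟩
    rcases hz with hz | hz
    · exact Or.inl hz
    · rw [mem_iUnion] at hz
      obtain ⟨n, hn⟩ := hz
      rcases hn with hn | hn | hn
      · exfalso
        have h1 := h.ball_coord hn
        have h2 := Complex.norm_le_abs_re_add_abs_im z
        have hτ1 := τ_le n
        have hτ := τ_pos n
        rw [abs_lt, abs_lt] at h1
        have h3 : |z.re| ≤ 4 := by rw [abs_le]; constructor <;> linarith [h1.1.1, h1.1.2]
        have h4 : |z.im| ≤ 1 := by rw [abs_le]; constructor <;> linarith [h1.2.1, h1.2.2]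
        have : (6:ℝ) < ‖z‖ := hz6
        linarith
      · exact Or.inr (mem_iUnion.2 ⟨n, Or.inl ⟨by linarith [hn.1], hn.2⟩⟩)
      · exact Or.inr (mem_iUnion.2 ⟨n, Or.inr hn⟩)
  · rintro ⟨hz, hz6⟩
    refine ⟨?_, hz6⟩
    rcases hz with hz | hz
    · exact Or.inl hz
    · rw [mem_iUnion] at hz
      obtain ⟨n, hn⟩ := hz
      rcases hn with hn | hn
      · rcases lt_or_ge 3 z.re with h1 | h1
        · exact Or.inr (mem_iUnion.2 ⟨n, Or.inr (Or.inl ⟨h1, hn.2⟩)⟩)
        · exfalso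
          have h2 := Complex.norm_le_abs_re_add_abs_im z
          have hτ1 := τ_le n
          have hτ := τ_pos n
          have h5 := abs_lt.1 hn.2.2
          have h3 : |z.re| ≤ 3 := by rw [abs_le]; constructor <;> linarith [hn.1]
          have h4 : |z.im| ≤ 1 := by rw [abs_le]; constructor <;> linarith [h5.1, h5.2]
          have : (6:ℝ) < ‖z‖ := hz6
          linarith
      · exact Or.inr (mem_iUnion.2 ⟨n, Or.inr (Or.inr hn)⟩)

lemma iSup_ofReal_top (P : ℝ → Prop) (hP : ∀ p, 0 < p → P p) :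
    (⨆ (p : ℝ) (_ : P p), ENNReal.ofReal p) = ⊤ := by
  rw [eq_top_iff]
  refine ENNReal.le_of_forall_nnreal_lt ?_
  intro r _
  have h1 : P ((r:ℝ) + 1) := hP _ (by positivity)
  refine le_trans ?_ (le_iSup₂ ((r:ℝ)+1) h1)
  rw [← ENNReal.ofReal_coe_nnreal]
  exact ENNReal.ofReal_le_ofReal (by linarith)

theorem main : ∃ D₁ D₂ : Set ℂ, IsOpen D₁ ∧ IsConnected D₁ ∧ IsOpen D₂ ∧ IsConnected D₂ ∧
    D₁ ∩ {z | 6 < ‖z‖} = D₂ ∩ {z | 6 < ‖z‖} ∧
    hardyNum D₁ = ⊤ ∧ bergNum D₁ = ⊤ ∧ (∀ α : ℝ, -1 < α → bergWNum α D₁ = ⊤) ∧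
    hardyNum D₂ ≤ 8 ∧ bergNum D₂ ≤ 4 ∧
    (∀ α : ℝ, -1 < α → bergWNum α D₂ ≤ ENNReal.ofReal (4 * (α + 2))) := by
  obtain ⟨X, g, t, T, h⟩ := exists_data
  have hF : FF g ∈ Hol (D2 X) := ⟨h.diffF, h.mapsTo⟩
  refine ⟨D1 X, D2 X, isOpen_D1, h.conn1, isOpen_D2, h.conn2, h.agree, ?_, ?_, ?_, ?_, ?_, ?_⟩
  · rw [hardyNum, eq_top_iff]
    refine le_iInf₂ fun f hf => ?_
    rw [hardyFun, iSup_ofReal_top]
    intro p hp
    exact ⟨hp, h.hardy hp hf.1 hf.2⟩
  · rw [bergNum, eq_top_iff]
    refine le_iInf₂ fun f hf => ?_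
    rw [← iSup_ofReal_top (fun p => 0 < p) (fun p hp => hp)]
    refine iSup₂_le fun p hp => ?_
    refine le_trans ?_ (le_iSup_of_le (2*p) (le_iSup_of_le 0 (le_iSup_of_le
      ⟨by positivity, by norm_num, hardy_bergman (by positivity) (by norm_num)
        (h.hardy (by positivity) hf.1 hf.2)⟩ le_rfl)))
    apply ENNReal.ofReal_le_ofReal
    rw [zero_add]; linarith
  · intro α hα
    rw [bergWNum, eq_top_iff]
    refine le_iInf₂ fun f hf => ?_
    rw [bergWFun, iSup_ofReal_top]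
    intro p hp
    exact ⟨hp, hardy_bergman hp hα (h.hardy hp hf.1 hf.2)⟩
  · refine (iInf₂_le (FF g) hF).trans ?_
    refine iSup₂_le fun p hp => ?_
    have h1 := hardy_bergman (α := 0) hp.1 (by norm_num) hp.2
    have h2 : p ≤ 8 := by
      by_contra hcon
      push Not at hcon
      exact h.not_bergman hp.1 (by linarith) h1
    calc ENNReal.ofReal p ≤ ENNReal.ofReal 8 := ENNReal.ofReal_le_ofReal h2
      _ = 8 := by norm_num
  · refine (iInf₂_le (FF g) hF).trans ?_
    refine iSup_le fun p => iSup₂_le fun α hp => ?_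
    have h2 : p / (α + 2) ≤ 4 := by
      rw [div_le_iff₀ (by linarith [hp.2.1])]
      by_contra hcon
      push Not at hcon
      exact h.not_bergman hp.1 (by linarith) hp.2.2
    calc ENNReal.ofReal (p / (α + 2)) ≤ ENNReal.ofReal 4 := ENNReal.ofReal_le_ofReal h2
      _ = 4 := by norm_num
  · intro α hα
    refine (iInf₂_le (FF g) hF).trans ?_
    refine iSup₂_le fun p hp => ?_
    apply ENNReal.ofReal_le_ofReal
    by_contra hcon
    push Not at hcon
    exact h.not_bergman hp.1 (by linarith) hp.2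

end Q72.HN
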